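import Pool.Agent.AbsBorel.KeyB

/-!
# A nonnull set of points with prescribed labels
-/

open Cardinal Set MeasureTheory Function Filter
open scoped ENNReal Topology

namespace AbsBorel.Key

/-! ### The relation -/

/-- The relation between points and labels. -/
def Rel (x : Om) (N : ℕ → Set ℕ) (v : ℝ) : Prop :=
  ∃ k0, ∀ k ≥ k0, x.1 k ∈ UU (N k) ∧ x.2.1 (k, loc (N k) (x.1 k)) = (dig k v, dig k x.2.2)

theorem Rel.unique {x : Om} {N : ℕ → Set ℕ} {v v' : ℝ} (h : Rel x N v) (h' : Rel x N v') :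
    v = v' := by
  obtain ⟨k1, h1⟩ := h
  obtain ⟨k2, h2⟩ := h'
  apply eq_of_dig
  intro n
  refine ⟨max n (max k1 k2), le_max_left _ _, ?_⟩
  have e1 := (h1 _ ((le_max_left k1 k2).trans (le_max_right n _))).2
  have e2 := (h2 _ ((le_max_right k1 k2).trans (le_max_right n _))).2
  rw [e1] at e2
  exact congrArg Prod.fst e2

theorem rel_zmod {N : ℕ → Set ℕ} (v : ℝ) {k0 : ℕ} {y : ℕ → ℝ} (z : ZZ)
    (hy : ∀ k ≥ k0, y k ∈ UU (N k)) (b : ℝ) : Rel (y, zmod N v k0 y z b, b) N v := by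
  refine ⟨k0, fun k hk => ⟨hy k hk, ?_⟩⟩
  show (if k0 ≤ k ∧ loc (N k) (y k) = loc (N k) (y k) then (dig k v, dig k b) else _) = _
  rw [if_pos ⟨hk, rfl⟩]

theorem zmod_unique {N N' : ℕ → Set ℕ} {v v' : ℝ} (hv : v ≠ v') {k0 : ℕ} {y : ℕ → ℝ} {z : ZZ}
    {b b' : ℝ} (h : Rel (y, zmod N v k0 y z b, b) N' v')
    (h' : Rel (y, zmod N v k0 y z b', b') N' v') : b = b' := by
  by_contra hbb
  obtain ⟨k1, h1⟩ := h
  obtain ⟨k2, h2⟩ := h'
  have h3 : ∃ n, ∀ k ≥ n, dig k b ≠ dig k b' := by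
    by_contra hcon
    push Not at hcon
    exact hbb (eq_of_dig hcon)
  obtain ⟨n, hn⟩ := h3
  apply hv
  apply eq_of_dig
  intro m
  refine ⟨max m (max n (max k1 k2)), le_max_left _ _, ?_⟩
  set k := max m (max n (max k1 k2)) with hk
  have hk1 : k1 ≤ k := by omega
  have hk2 : k2 ≤ k := by omega
  have hkn : n ≤ k := by omega
  have e1 := (h1 k hk1).2
  have e2 := (h2 k hk2).2
  change (if k0 ≤ k ∧ loc (N' k) (y k) = loc (N k) (y k) then (dig k v, dig k b)
    else z (k, loc (N' k) (y k))) = (dig k v', dig k b) at e1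
  change (if k0 ≤ k ∧ loc (N' k) (y k) = loc (N k) (y k) then (dig k v, dig k b')
    else z (k, loc (N' k) (y k))) = (dig k v', dig k b') at e2
  by_cases hc : k0 ≤ k ∧ loc (N' k) (y k) = loc (N k) (y k)
  · rw [if_pos hc] at e1
    exact congrArg Prod.fst e1
  · rw [if_neg hc] at e1 e2
    rw [e1] at e2
    exact absurd (congrArg Prod.snd e2) (hn k hkn)

/-- The space of labels. -/
abbrev PP : Type := (ℕ → ℕ → Bool) × ℝ

/-- The sets of integers coded by a label. -/
def codeN (c : PP) (k : ℕ) : Set ℕ := {n | c.1 k n = true}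

/-- The relation as a set. -/
def RS : Set (Om × PP) := {q | Rel q.1 (codeN q.2) q.2.2}

theorem rel_step_iff {x : Om} {N : Set ℕ} {k : ℕ} {c : Lab k} :
    (x.1 k ∈ UU N ∧ x.2.1 (k, loc N (x.1 k)) = c) ↔
      ∃ n, ((n ∈ N ∧ x.1 k ∈ BB n) ∧ (∀ m < n, ¬ (m ∈ N ∧ x.1 k ∈ BB m))) ∧ x.2.1 (k, n) = c := by
  constructor
  · rintro ⟨h1, h2⟩
    refine ⟨_, ⟨loc_spec h1, fun m hm h3 => ?_⟩, h2⟩
    exact absurd (Nat.sInf_le (s := {n | n ∈ N ∧ x.1 k ∈ BB n}) h3) (not_le.2 hm)
  · rintro ⟨n, ⟨h1, h2⟩, h3⟩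
    have h4 : x.1 k ∈ UU N := mem_UU.2 ⟨n, h1⟩
    have h5 : loc N (x.1 k) = n := by
      apply le_antisymm
      · exact Nat.sInf_le (s := {n | n ∈ N ∧ x.1 k ∈ BB n}) h1
      · apply le_loc h4
        intro m hm1 hm2
        by_contra hlt
        exact h2 m (not_le.1 hlt) ⟨hm1, hm2⟩
    rw [h5]
    exact ⟨h4, h3⟩

theorem measurableSet_RS : MeasurableSet RS := by
  have h0 : RS = ⋃ k0 : ℕ, ⋂ k : ℕ, ⋂ _ : k0 ≤ k, ⋃ n : ℕ,
      (({q : Om × PP | q.2.1 k n = true} ∩ {q | q.1.1 k ∈ BB n}) ∩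
        ⋂ m : ℕ, ⋂ _ : m < n, ({q : Om × PP | q.2.1 k m = true} ∩ {q | q.1.1 k ∈ BB m})ᶜ) ∩
      {q | q.1.2.1 (k, n) = ((dig k q.2.2, dig k q.1.2.2) : Lab k)} := by
    ext q
    simp only [mem_iUnion, mem_iInter]
    constructor
    · rintro ⟨k0, h⟩
      refine ⟨k0, fun k hk => ?_⟩
      obtain ⟨n, ⟨h1, h2⟩, h3⟩ := rel_step_iff.1 (h k hk)
      exact ⟨n, ⟨h1, by
        simp only [mem_iInter]
        exact fun m hm => h2 m hm⟩, h3⟩
    · rintro ⟨k0, h⟩
      refine ⟨k0, fun k hk => ?_⟩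
      obtain ⟨n, ⟨h1, h2⟩, h3⟩ := h k hk
      simp only [mem_iInter] at h2
      exact rel_step_iff.2 ⟨n, ⟨h1, fun m hm => h2 m hm⟩, h3⟩
  have hb : ∀ k n, MeasurableSet {q : Om × PP | q.2.1 k n = true} := by
    intro k n
    have hf : Measurable fun q : Om × PP => q.2.1 k n :=
      (measurable_pi_apply n).comp ((measurable_pi_apply k).comp
        (measurable_fst.comp measurable_snd))
    exact hf (measurableSet_singleton true)
  have hB : ∀ k n, MeasurableSet {q : Om × PP | q.1.1 k ∈ BB n} := by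
    intro k n
    have hf : Measurable fun q : Om × PP => q.1.1 k :=
      (measurable_pi_apply k).comp (measurable_fst.comp measurable_fst)
    exact hf (isOpen_BB n).measurableSet
  have hL : ∀ k n, MeasurableSet
      {q : Om × PP | q.1.2.1 (k, n) = ((dig k q.2.2, dig k q.1.2.2) : Lab k)} := by
    intro k n
    have hf : Measurable fun q : Om × PP => (q.1.2.1 (k, n) : Lab k) :=
      (measurable_pi_apply (k, n)).comp (measurable_fst.comp (measurable_snd.comp measurable_fst))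
    have hg : Measurable fun q : Om × PP => ((dig k q.2.2, dig k q.1.2.2) : Lab k) :=
      ((measurable_dig k).comp (measurable_snd.comp measurable_snd)).prodMk
        ((measurable_dig k).comp (measurable_snd.comp (measurable_snd.comp measurable_fst)))
    exact measurableSet_eq_fun hf hg
  rw [h0]
  refine MeasurableSet.iUnion fun k0 => MeasurableSet.iInter fun k => MeasurableSet.iInter fun _ =>
    MeasurableSet.iUnion fun n => (((hb k n).inter (hB k n)).inter
      (MeasurableSet.iInter fun m => MeasurableSet.iInter fun _ =>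
        ((hb k m).inter (hB k m)).compl)).inter (hL k n)

/-! ### Null sets -/

theorem nu_null (hnull : ∀ Y : Set ℝ, #Y < 𝔠 → (volume : Measure ℝ) Y = 0) {Y : Set ℝ}
    (hY : #Y < 𝔠) : nu Y = 0 := by
  have h : nu Y ≤ (volume : Measure ℝ) Y := Measure.restrict_le_self Y
  rw [hnull Y hY] at h
  exact le_antisymm h bot_le

instance : nu.OuterRegular := by
  unfold nu
  infer_instance

theorem exists_code {Y : Set ℝ} (hY : nu Y = 0) :
    ∃ N : ℕ → Set ℕ, (∀ k, nu (UU (N k)) ≤ 2⁻¹ ^ k) ∧ ∀ k, Y ⊆ UU (N k) := by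
  have h : ∀ k : ℕ, ∃ U : Set ℝ, Y ⊆ U ∧ IsOpen U ∧ nu U < 2⁻¹ ^ k := by
    intro k
    obtain ⟨U, h1, h2, h3⟩ := Y.exists_isOpen_lt_of_lt (μ := nu) (2⁻¹ ^ k) (by
      rw [hY]
      exact ENNReal.pow_pos (by simp) k)
    exact ⟨U, h1, h2, h3⟩
  choose U hU1 hU2 hU3 using h
  have e : ∀ k, UU {n | BB n ⊆ U k} = U k := by
    intro k
    ext y
    rw [mem_UU]
    constructor
    · rintro ⟨n, hn, hy⟩
      exact hn hy
    · intro hy
      obtain ⟨n, h1, h2⟩ := BB_spec (hU2 k) hy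
      exact ⟨n, h2, h1⟩
  exact ⟨fun k => {n | BB n ⊆ U k}, fun k => by rw [e]; exact (hU3 k).le,
    fun k => by rw [e]; exact hU1 k⟩

/-! ### The points -/

theorem exists_points (hnull : ∀ Y : Set ℝ, #Y < 𝔠 → (volume : Measure ℝ) Y = 0) {V : Type}
    (hV : #V < 𝔠) (τ : (𝔠 : Cardinal.{0}).ord.ToType → V)
    (hτ : ∀ v, #{α // τ α = v} < 𝔠) :
    ∃ (x : (𝔠 : Cardinal.{0}).ord.ToType → Om) (c : V → PP), Injective x ∧
      (∀ α v, (x α, c v) ∈ RS ↔ v = τ α) ∧
      ∀ K : Set Om, IsClosed K → mm K ≠ 0 → ∃ α, x α ∈ K := by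
  classical
  let T := (𝔠 : Cardinal.{0}).ord.ToType
  -- enumeration of the closed sets of positive measure
  obtain ⟨e, he⟩ : ∃ e : T → {K : Set Om // IsClosed K ∧ mm K ≠ 0}, Surjective e := by
    have hne : Nonempty {K : Set Om // IsClosed K ∧ mm K ≠ 0} :=
      ⟨⟨Set.univ, isClosed_univ, by rw [measure_univ]; exact one_ne_zero⟩⟩
    have hcard : #{K : Set Om // IsClosed K ∧ mm K ≠ 0} ≤ #T := by
      have h1 : #T = 𝔠 := mk_ord_toType _
      rw [h1]
      have h2 : #{t : Set Om | MeasurableSet t} ≤ 𝔠 := by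
        obtain ⟨b, hb, hb'⟩ := (inferInstance : MeasurableSpace.CountablyGenerated Om).isCountablyGenerated
        have := MeasurableSpace.cardinal_measurableSet_le_continuum (s := b)
          ((Cardinal.le_aleph0_iff_set_countable.2 hb).trans Cardinal.aleph0_le_continuum)
        rw [← hb'] at this
        exact this
      refine le_trans (Cardinal.mk_le_mk_of_subset (s := {K : Set Om | IsClosed K ∧ mm K ≠ 0})
        (t := {t : Set Om | MeasurableSet t}) fun K hK => hK.1.measurableSet) h2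
    obtain ⟨g⟩ := hcard
    exact ⟨Function.invFun g, Function.invFun_surjective g.injective⟩
  choose Y hYc hY using fun α : T => key (e α).2.1 (e α).2.2
  -- the codes of the open sets
  have hN : ∀ v : V, ∃ N : ℕ → Set ℕ, (∀ k, nu (UU (N k)) ≤ 2⁻¹ ^ k) ∧
      ∀ k, (⋃ α : {α // τ α = v}, Y α.1) ⊆ UU (N k) := by
    intro v
    apply exists_code
    apply nu_null hnull
    refine lt_of_le_of_lt (Cardinal.mk_iUnion_le_sum_mk) ?_
    refine lt_of_le_of_lt (Cardinal.sum_le_sum _ (fun _ => ℵ₀) fun α =>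
      Cardinal.le_aleph0_iff_set_countable.2 (hYc α.1)) ?_
    rw [Cardinal.sum_const', mul_comm]
    exact Cardinal.mul_lt_of_lt Cardinal.aleph0_le_continuum Cardinal.aleph0_lt_continuum (hτ v)
  choose N hN1 hN2 using hN
  obtain ⟨r⟩ : Nonempty (V ↪ ℝ) := by
    rw [← Cardinal.le_def, Cardinal.mk_real]
    exact hV.le
  let c : V → PP := fun v => (fun k n => decide (n ∈ N v k), r v)
  have hcN : ∀ v, codeN (c v) = N v := by
    intro v
    funext k
    ext n
    show decide (n ∈ N v k) = true ↔ _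
    rw [decide_eq_true_iff]
  have hRS : ∀ x v, (x, c v) ∈ RS ↔ Rel x (N v) (r v) := by
    intro x v
    show Rel x (codeN (c v)) (r v) ↔ _
    rw [hcN]
  -- good points
  let S : T → Set Om := fun α => {x | x ∈ (e α).1 ∧ ∀ v, (x, c v) ∈ RS ↔ v = τ α}
  have hS : ∀ α : T, ∀ P : Set Om, #P < 𝔠 → ∃ x, x ∈ S α ∧ x ∉ P := by
    intro α P hP
    obtain ⟨k0, y, z, hy, hA⟩ := hY α (N (τ α)) (hN1 (τ α)) (fun k =>
      (subset_iUnion (fun α : {α' // τ α' = τ α} => Y α.1) ⟨α, rfl⟩).trans (hN2 (τ α) k)) (r (τ α))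
    let xb : ℝ → Om := fun b => (y, zmod (N (τ α)) (r (τ α)) k0 y z b, b)
    have hxb : Injective xb := fun b b' h => congrArg (fun q : Om => q.2.2) h
    -- bad parameters
    let Bad : Set ℝ := ⋃ v : {v // v ≠ τ α}, {b | Rel (xb b) (N v.1) (r v.1)}
    have hBad : #Bad < 𝔠 := by
      refine lt_of_le_of_lt (Cardinal.mk_iUnion_le_sum_mk) ?_
      refine lt_of_le_of_lt (Cardinal.sum_le_sum _ (fun _ => 1) fun v => ?_) ?_
      · rw [Cardinal.mk_le_one_iff_set_subsingleton]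
        intro b hb b' hb'
        exact zmod_unique (fun h => v.2 (r.injective h).symm) hb hb'
      · rw [Cardinal.sum_const', mul_one]
        exact lt_of_le_of_lt (Cardinal.mk_subtype_le _) hV
    have hPrev : #(xb ⁻¹' P) < 𝔠 :=
      lt_of_le_of_lt (Cardinal.mk_preimage_of_injective xb P hxb) hP
    have hnullset : nu (Bad ∪ xb ⁻¹' P) = 0 := by
      apply nu_null hnull
      refine lt_of_le_of_lt (Cardinal.mk_union_le _ _) ?_
      exact Cardinal.add_lt_of_lt Cardinal.aleph0_le_continuum hBad hPrev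
    obtain ⟨b, hb1, hb2⟩ : ∃ b, xb b ∈ (e α).1 ∧ b ∉ Bad ∪ xb ⁻¹' P := by
      by_contra hcon
      push Not at hcon
      apply hA
      exact measure_mono_null (fun b hb => hcon b hb) hnullset
    refine ⟨xb b, ⟨hb1, fun v => ?_⟩, fun h => hb2 (Or.inr h)⟩
    rw [hRS]
    constructor
    · intro h
      by_contra hv
      apply hb2
      left
      rw [mem_iUnion]
      exact ⟨⟨v, hv⟩, h⟩
    · rintro rfl
      exact rel_zmod (r (τ α)) z hy b
  -- recursion
  let pick : T → Set Om → Om := fun α P =>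
    if h : ∃ x, x ∈ S α ∧ x ∉ P then h.choose else (0, fun _ => (fun _ => false, fun _ => false), 0)
  let x : T → Om := WellFounded.fix (wellFounded_lt (α := T))
    (fun α f => pick α {g | ∃ β, ∃ h : β < α, g = f β h})
  have hx : ∀ α, x α = pick α (x '' Iio α) := by
    intro α
    show WellFounded.fix _ _ α = _
    rw [WellFounded.fix_eq]
    congr 1
    ext g
    constructor
    · rintro ⟨β, h, rfl⟩; exact ⟨β, h, rfl⟩
    · rintro ⟨β, h, rfl⟩; exact ⟨β, h, rfl⟩
  have hcard : ∀ α : T, #(x '' Iio α) < 𝔠 := fun α =>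
    lt_of_le_of_lt Cardinal.mk_image_le (mk_Iio_toType_ord_lt α)
  have hxs : ∀ α, x α ∈ S α ∧ x α ∉ x '' Iio α := by
    intro α
    have h := hS α _ (hcard α)
    have h2 : pick α (x '' Iio α) = h.choose := dif_pos h
    have h3 := h.choose_spec
    rw [← h2, ← hx α] at h3
    exact h3
  refine ⟨x, c, ?_, fun α => (hxs α).1.2, ?_⟩
  · intro α β h
    rcases lt_trichotomy α β with h1 | h1 | h1
    · exact absurd ⟨α, h1, h⟩ (hxs β).2
    · exact h1
    · exact absurd ⟨β, h1, h.symm⟩ (hxs α).2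
  · intro K hK hm
    obtain ⟨α, hα⟩ := he ⟨K, hK, hm⟩
    refine ⟨α, ?_⟩
    have := (hxs α).1.1
    rw [hα] at this
    exact this

/-! ### Transfer to the real line -/

theorem mm_singleton (x : Om) : mm {x} = 0 := by
  have h : ({x} : Set Om) = {x.1} ×ˢ ({x.2.1} ×ˢ {x.2.2}) := by
    rw [singleton_prod_singleton, singleton_prod_singleton]
  have h0 : nu {x.2.2} = 0 := by
    have : nu {x.2.2} ≤ (volume : Measure ℝ) {x.2.2} := Measure.restrict_le_self _
    rw [Real.volume_singleton] at this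
    exact le_antisymm this bot_le
  unfold mm
  rw [h, Measure.prod_prod, Measure.prod_prod, h0, mul_zero, mul_zero]

/-- **Main theorem of this part.** -/
theorem key_main (hnull : ∀ Y : Set ℝ, #Y < 𝔠 → (volume : Measure ℝ) Y = 0) {V : Type}
    (hV : #V < 𝔠) (τ : (𝔠 : Cardinal.{0}).ord.ToType → V)
    (hτ : ∀ v, #{α // τ α = v} < 𝔠) :
    ∃ (μ : Measure ℝ) (x : (𝔠 : Cardinal.{0}).ord.ToType → ℝ) (w : V → ℝ) (R : Set (ℝ × ℝ)),
      IsProbabilityMeasure μ ∧ (∀ t, μ {t} = 0) ∧ Injective x ∧ (∀ α, x α ∈ Icc 0 1) ∧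
      MeasurableSet R ∧ (∀ α v, (x α, w v) ∈ R ↔ v = τ α) ∧ μ (range x) ≠ 0 := by
  obtain ⟨x, c, hinj, hR, hK⟩ := exists_points hnull hV τ hτ
  let φ : Om → ℝ := fun q => ((unitInterval.sigmoid (embeddingReal Om q) : unitInterval) : ℝ)
  have hφ : MeasurableEmbedding φ :=
    (MeasurableEmbedding.subtype_coe measurableSet_Icc).comp
      (measurableEmbedding_sigmoid_comp_embeddingReal Om)
  have hψ : MeasurableEmbedding (embeddingReal PP) := measurableEmbedding_embeddingReal PP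
  have hprod := hφ.prodMap hψ
  refine ⟨mm.map φ, fun α => φ (x α), fun v => embeddingReal PP (c v),
    Prod.map φ (embeddingReal PP) '' RS, Measure.isProbabilityMeasure_map hφ.measurable.aemeasurable, ?_,
    hφ.injective.comp hinj, fun α => (unitInterval.sigmoid (embeddingReal Om (x α))).2,
    hprod.measurableSet_image.2 measurableSet_RS, ?_, ?_⟩
  · intro t
    rw [Measure.map_apply hφ.measurable (measurableSet_singleton t)]
    by_cases h : ∃ q, φ q = t
    · obtain ⟨q, rfl⟩ := h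
      have : φ ⁻¹' {φ q} = {q} := by
        ext q'
        exact ⟨fun h => hφ.injective h, fun h => congrArg φ h⟩
      rw [this]
      exact mm_singleton q
    · have : φ ⁻¹' {t} = ∅ := by
        ext q
        exact ⟨fun h' => (h ⟨q, h'⟩).elim, fun h' => h'.elim⟩
      rw [this, measure_empty]
  · intro α v
    rw [← hR α v]
    constructor
    · rintro ⟨q, hq, hq'⟩
      have : q = (x α, c v) := hprod.injective hq'
      rwa [this] at hq
    · intro h
      exact ⟨_, h, rfl⟩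
  · intro h
    obtain ⟨t, ht1, ht2, ht3⟩ := exists_measurable_superset_of_null h
    rw [Measure.map_apply hφ.measurable ht2] at ht3
    have hm : MeasurableSet (φ ⁻¹' t)ᶜ := (hφ.measurable ht2).compl
    have h1 : mm (φ ⁻¹' t)ᶜ = 1 := by
      rw [prob_compl_eq_one_sub (hφ.measurable ht2), ht3, tsub_zero]
    haveI : mm.WeaklyRegular :=
      Measure.WeaklyRegular.of_pseudoMetrizableSpace_of_isFiniteMeasure mm
    obtain ⟨K, hKs, hKc, hKm⟩ := hm.exists_lt_isClosed_of_ne_top (μ := mm) (r := 0)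
      (measure_ne_top _ _) (by rw [h1]; exact zero_lt_one)
    obtain ⟨α, hα⟩ := hK K hKc hKm.ne'
    exact hKs hα (ht1 ⟨α, rfl⟩)

end AbsBorel.Key
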