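import Pool.Agent.AbsBorel.Final
import Pool.Agent.AbsBorel.KeyC

/-!
# Every group of size `𝔠` is abstractly Borelian
-/

open Cardinal Set MeasureTheory

namespace AbsBorel

open Classical in
theorem exists_seq' {G : Type} [Group G] {J : Type} [LinearOrder J] [WellFoundedLT J]
    {j : G → ℝ} (hj : Function.Injective j) {s : J → G} (hs : Indep s)
    (hsq : ∀ α β, s α * s α ≠ s β) {w : G → ℝ} {V : Set G} {R : Set (ℝ × ℝ)}
    (hR : MeasurableSet R) (hVs : ∀ α, s α ∉ V) (hsV : ∀ α, s α * s α ∈ V)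
    (hw : ∀ α, ∀ g ∈ V, (j (s α), w g) ∈ R ↔ s α * s α = g)
    {c : ℝ} (hc : ∀ g, g ∈ range s ↔ j g < c) :
    ∃ A : ℕ → Set G, Borelian A (graph G) ∧
      ∀ n, (∃ q : ℚ, A n = j ⁻¹' Iio (q : ℝ)) ∨ range s ⊆ A n ∨ Disjoint (range s) (A n) := by
  obtain ⟨ρ, a, _, hder⟩ := good_all _ (⊤ : Subgroup G) rfl
  let comp : List (ℕ × ℕ) → (G → G) :=
    fun l => l.foldr (fun i f => U ρ a s (sq s) i.1 i.2 ∘ f) id
  let F : Set (G → G) := range comp
  let w' : G → ℝ := fun g => if g ∈ range s then 0 else w g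
  let u : G → ℝ := fun g => if g ∈ V then 1 else 0
  let h : Option (Option (Option (List (ℕ × ℕ)))) → G → ℝ
    | none => j
    | some none => w'
    | some (some none) => u
    | some (some (some l)) => fun g => if g ∈ range s then 0 else j (comp l g)
  have h0 : ∀ i : Option (Option (List (ℕ × ℕ))), ∀ g ∈ range s, h (some i) g = 0 := by
    intro i g hg
    rcases i with _ | _ | l
    · exact if_pos hg
    · obtain ⟨α, rfl⟩ := hg
      exact if_neg (hVs α)
    · exact if_pos hg
  obtain ⟨A, hA, hA'⟩ := exists_gen h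
  refine ⟨A, ?_, ?_⟩
  · apply borelian_of_prod
    letI : MeasurableSpace G := genSigma A
    have hjm : Measurable j := hA none
    have hwm : Measurable w' := hA (some none)
    have hum : Measurable u := hA (some (some none))
    have hS : MeasurableSet (range s) := by
      have : range s = j ⁻¹' Iio c := by ext g; exact hc g
      rw [this]
      exact hjm measurableSet_Iio
    have hX : Measurable fun ω : G × G × G => ω.1 := measurable_fst
    have hY : Measurable fun ω : G × G × G => ω.2.1 := measurable_fst.comp measurable_snd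
    have hZ : Measurable fun ω : G × G × G => ω.2.2 := measurable_snd.comp measurable_snd
    refine meas_graph' (F := F) hj hjm hS hs hsq ?_
      (fun x y z h => hder x (Subgroup.mem_top _) y (Subgroup.mem_top _) z
        (Subgroup.mem_top _) h) ?_ ⟨[], rfl⟩ ?_
    · have hVm : MeasurableSet V := by
        have : V = u ⁻¹' Ioi (1 / 2 : ℝ) := by
          ext g
          constructor
          · intro hg
            show (1 / 2 : ℝ) < (if g ∈ V then 1 else 0)
            rw [if_pos hg]; norm_num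
          · intro hg
            by_contra hcon
            have : (1 / 2 : ℝ) < (if g ∈ V then 1 else 0) := hg
            rw [if_neg hcon] at this
            norm_num at this
        rw [this]
        exact hum measurableSet_Ioi
      have e : (({ω : G × G × G | ω.1 ∈ range s} ∩ {ω | ω.2.1 ∈ range s} ∩
          {ω | ω.2.2 ∉ range s}) ∩ {ω | ω.1 = ω.2.1 ∧ ω.1 * ω.1 = ω.2.2}) =
          ({ω : G × G × G | ω.1 ∈ range s} ∩ {ω | ω.2.1 ∈ range s} ∩
          {ω | ω.2.2 ∉ range s}) ∩ ({ω | ω.1 = ω.2.1} ∩ ({ω | ω.2.2 ∈ V} ∩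
            {ω | (j ω.1, w' ω.2.2) ∈ R})) := by
        ext ⟨x, y, z⟩
        simp only [mem_inter_iff, mem_ofPred_eq]
        constructor
        · rintro ⟨⟨⟨⟨α, rfl⟩, h2⟩, h3⟩, h4, h5⟩
          refine ⟨⟨⟨⟨α, rfl⟩, h2⟩, h3⟩, h4, ?_, ?_⟩
          · rw [← h5]; exact hsV α
          · show (j (s α), if z ∈ range s then 0 else w z) ∈ R
            rw [if_neg h3]
            exact (hw α z (by rw [← h5]; exact hsV α)).2 h5
        · rintro ⟨⟨⟨⟨α, rfl⟩, h2⟩, h3⟩, h4, h5, h6⟩
          refine ⟨⟨⟨⟨α, rfl⟩, h2⟩, h3⟩, h4, ?_⟩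
          have h6' : (j (s α), if z ∈ range s then 0 else w z) ∈ R := h6
          rw [if_neg h3] at h6'
          exact (hw α z h5).1 h6'
      rw [e]
      exact (((hX hS).inter (hY hS)).inter (hZ hS.compl)).inter
        ((meas_eq_eq hj hjm hX hY).inter ((hZ hVm).inter
          (((hjm.comp hX).prodMk (hwm.comp hZ)) hR)))
    · rintro i n _ ⟨l, rfl⟩
      exact ⟨(i, n) :: l, rfl⟩
    · rintro _ ⟨l, rfl⟩
      refine ⟨h (some (some (some l))), hA (some (some (some l))), ?_⟩
      intro g hg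
      exact if_neg hg
  · intro n
    obtain ⟨i, q, hn⟩ := hA' n
    cases i with
    | none => exact Or.inl ⟨q, hn⟩
    | some i =>
      right
      by_cases hq : (0 : ℝ) < q
      · left
        intro g hg
        rw [hn]
        show h (some i) g < (q : ℝ)
        rw [h0 i g hg]; exact hq
      · right
        rw [Set.disjoint_left]
        intro g hg
        rw [hn]
        show ¬ (h (some i) g < (q : ℝ))
        rw [h0 i g hg]; exact hq

/-- A set of reals of positive outer measure, for a diffuse probability measure, carries a diffuse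
probability measure. -/
theorem exists_measure' (μ : Measure ℝ) [IsFiniteMeasure μ] (hμ : ∀ t, μ {t} = 0) (Y : Set ℝ)
    (h0 : μ Y ≠ 0) : ∃ ν : Measure Y, ν univ = 1 ∧ ∀ y, ν {y} = 0 := by
  have hle : (inferInstance : MeasurableSpace Y) ≤
      (OuterMeasure.comap (Subtype.val : Y → ℝ) μ.toOuterMeasure).caratheodory := by
    rintro _ ⟨B, hB, rfl⟩
    intro t
    simp only [OuterMeasure.comap_apply]
    have h1 : (Subtype.val '' (t ∩ Subtype.val ⁻¹' B) : Set ℝ) = Subtype.val '' t ∩ B :=
      image_inter_preimage _ _ _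
    have h2 : (Subtype.val '' (t \ Subtype.val ⁻¹' B) : Set ℝ) = Subtype.val '' t \ B := by
      ext y; constructor
      · rintro ⟨z, ⟨hz1, hz2⟩, rfl⟩; exact ⟨⟨z, hz1, rfl⟩, hz2⟩
      · rintro ⟨⟨z, hz1, rfl⟩, hz2⟩; exact ⟨z, ⟨hz1, hz2⟩, rfl⟩
    rw [h1, h2]
    exact (measure_inter_add_sdiff _ hB).symm
  let ν0 : Measure Y := OuterMeasure.toMeasure _ hle
  have hν : ∀ t : Set Y, MeasurableSet t → ν0 t = μ (Subtype.val '' t : Set ℝ) := by
    intro t ht
    show OuterMeasure.toMeasure _ hle t = _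
    rw [toMeasure_apply _ _ ht]
    rfl
  refine ⟨(μ Y)⁻¹ • ν0, ?_, ?_⟩
  · rw [Measure.smul_apply, hν _ MeasurableSet.univ, image_univ, Subtype.range_coe, smul_eq_mul,
      ENNReal.inv_mul_cancel h0 (measure_ne_top _ _)]
  · intro y
    rw [Measure.smul_apply, hν _ (measurableSet_singleton y), image_singleton, hμ, smul_zero]

open Classical in
/-- The remaining case. -/
theorem abstractlyBorelian_singular (hnull : ∀ Y : Set ℝ, #Y < 𝔠 → (volume : Measure ℝ) Y = 0)
    {G : Type} [Group G] (hG : #G = 𝔠) (h1 : #(range fun x : G => x * x) < 𝔠)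
    (h2 : ∀ v : G, #{x : G | x * x = v} < 𝔠) : AbstractlyBorelian G := by
  set V : Set G := range fun x : G => x * x with hV
  haveI hinf : Infinite G := by
    rw [Cardinal.infinite_iff, hG]; exact Cardinal.aleph0_le_continuum
  have hX : 𝔠 ≤ #(Vᶜ : Set G) := by
    rw [Cardinal.mk_compl_of_infinite V (by rw [hG]; exact h1), hG]
  obtain ⟨s, hsX, hs, hsq⟩ := exists_indep 𝔠 Cardinal.aleph0_lt_continuum Vᶜ hX (by
    intro P hP _
    have : {x : G | x ∈ Vᶜ ∧ x * x ∈ P} = ∅ := by
      ext x
      simp only [mem_ofPred_eq, mem_empty_iff_false, iff_false, not_and]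
      intro _ hxP
      exact hP hxP ⟨x, rfl⟩
    rw [this, Cardinal.mk_emptyCollection]
    exact lt_trans Cardinal.aleph0_pos Cardinal.aleph0_lt_continuum)
  let τ : (𝔠 : Cardinal.{0}).ord.ToType → V := fun α => ⟨s α * s α, s α, rfl⟩
  have hτ : ∀ v, #{α // τ α = v} < 𝔠 := by
    intro v
    refine lt_of_le_of_lt ?_ (h2 v)
    refine Cardinal.mk_le_of_injective (f := fun α : {α // τ α = v} =>
      (⟨s α.1, congrArg Subtype.val α.2⟩ : {x : G | x * x = v})) ?_
    intro α β hαβ
    exact Subtype.ext (hs.inj (congrArg Subtype.val hαβ))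
  obtain ⟨μ, x, w0, R, hμ, hμ0, hx, hx01, hR, hxR, hμx⟩ := Key.key_main hnull h1 τ hτ
  obtain ⟨ν, hν1, hν0⟩ := exists_measure' μ hμ0 (range x) hμx
  obtain ⟨ι⟩ : Nonempty (G ≃ Icc (2 : ℝ) 3) := by
    rw [← Cardinal.eq, hG, Cardinal.mk_Icc_real (by norm_num)]
  let j : G → ℝ := Function.extend s x (fun g => (ι g : ℝ))
  have hj1 : ∀ α, j (s α) = x α := fun α => hs.inj.extend_apply _ _ α
  have hj2 : ∀ g, g ∉ range s → j g = ι g := fun g hg =>
    Function.extend_apply' _ _ _ (by rintro ⟨α, hα⟩; exact hg ⟨α, hα⟩)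
  have hlow : ∀ g, g ∈ range s → j g ≤ 1 := by
    rintro _ ⟨α, rfl⟩
    rw [hj1]; exact (hx01 α).2
  have hhigh : ∀ g, g ∉ range s → (2 : ℝ) ≤ j g := by
    intro g hg
    rw [hj2 g hg]; exact (ι g).2.1
  have hj : Function.Injective j := by
    intro g h hgh
    by_cases h1 : g ∈ range s <;> by_cases h2 : h ∈ range s
    · obtain ⟨α, rfl⟩ := h1
      obtain ⟨β, rfl⟩ := h2
      rw [hj1, hj1] at hgh
      rw [hx hgh]
    · have := hlow g h1; have := hhigh h h2; linarith
    · have := hlow h h2; have := hhigh g h1; linarith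
    · rw [hj2 g h1, hj2 h h2] at hgh
      exact ι.injective (Subtype.ext hgh)
  have hc : ∀ g, g ∈ range s ↔ j g < 3 / 2 := by
    intro g
    constructor
    · intro h; have := hlow g h; linarith
    · intro h; by_contra h2; have := hhigh g h2; linarith
  let w : G → ℝ := fun g => if h : g ∈ V then w0 ⟨g, h⟩ else 0
  obtain ⟨A, hA1, hA2⟩ := exists_seq' (w := w) (V := V) (R := R) hj hs hsq hR hsX
    (fun α => ⟨s α, rfl⟩) (by
      intro α g hg
      show (j (s α), if h : g ∈ V then w0 ⟨g, h⟩ else 0) ∈ R ↔ _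
      rw [dif_pos hg, hj1, hxR]
      constructor
      · intro h; exact (congrArg Subtype.val h).symm
      · intro h; exact Subtype.ext h.symm) hc
  refine ⟨A, ?_, hA1⟩
  let e : (𝔠 : Cardinal.{0}).ord.ToType ≃ range x := Equiv.ofInjective x hx
  let ψ : range x → G := fun y => s (e.symm y)
  have hψj : ∀ y, j (ψ y) = y := by
    intro y
    show j (s (e.symm y)) = y
    rw [hj1]
    exact congrArg Subtype.val (e.apply_symm_apply y)
  have hψ : @Measurable (range x) G _ (genSigma A) ψ := by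
    apply measurable_generateFrom
    rintro _ ⟨m, rfl⟩
    rcases hA2 m with ⟨q, hq⟩ | h | h
    · rw [hq]
      have : ψ ⁻¹' (j ⁻¹' Iio (q : ℝ)) = Subtype.val ⁻¹' Iio (q : ℝ) := by
        ext y
        simp only [mem_preimage, hψj]
      rw [this]
      exact measurable_subtype_coe measurableSet_Iio
    · have : ψ ⁻¹' (A m) = Set.univ := by
        ext y
        exact ⟨fun _ => trivial, fun _ => h ⟨_, rfl⟩⟩
      rw [this]; exact MeasurableSet.univ
    · have : ψ ⁻¹' (A m) = ∅ := by
        ext y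
        exact ⟨fun hy => (Set.disjoint_left.1 h ⟨_, rfl⟩ hy).elim, fun hy => hy.elim⟩
      rw [this]; exact MeasurableSet.empty
  refine ⟨@Measure.map (range x) G _ (genSigma A) ψ ν, ?_, ?_⟩
  · rw [@Measure.map_apply _ _ _ (genSigma A) _ _ hψ _ (@MeasurableSet.univ _ (genSigma A))]
    exact hν1
  · intro g hg
    rw [@Measure.map_apply _ _ _ (genSigma A) _ _ hψ _ hg]
    by_cases h : ∃ y, ψ y = g
    · obtain ⟨y, rfl⟩ := h
      have : ψ ⁻¹' {ψ y} = {y} := by
        ext z
        constructor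
        · intro hz
          have hz : ψ z = ψ y := hz
          have := congrArg j hz
          rw [hψj, hψj] at this
          exact Subtype.ext this
        · rintro rfl; rfl
      rw [this]; exact hν0 y
    · have : ψ ⁻¹' {g} = ∅ := by
        ext z
        exact ⟨fun hz => h ⟨z, hz⟩, fun hz => hz.elim⟩
      rw [this]; exact measure_empty

/-- **Every group of size `𝔠` is abstractly Borelian** (in ZFC). -/
theorem abstractlyBorelian_all (G : Type) [Group G] (hG : #G = 𝔠) : AbstractlyBorelian G := by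
  by_cases h1 : #(range fun x : G => x * x) = 𝔠 ∨ ∃ v : G, #{x : G | x * x = v} = 𝔠
  · exact abstractlyBorelian_of_squares G hG h1
  by_cases h2 : ∃ Y : Set ℝ, #Y < 𝔠 ∧ (volume : Measure ℝ) Y ≠ 0
  · exact abstractlyBorelian_of_regular (Or.inr h2) G hG
  push Not at h1 h2
  refine abstractlyBorelian_singular h2 hG ?_ fun v => ?_
  · exact lt_of_le_of_ne (le_trans Cardinal.mk_range_le hG.le) h1.1
  · exact lt_of_le_of_ne (le_trans (Cardinal.mk_set_le _) hG.le) (h1.2 v)

end AbsBorel
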