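import Mathlib

/-!
# Coset reduction in groups

For every group `G` there are countably many unary functions `ρ k, a n : G → G` such that every
triple with product one can be reduced to a trivial one by finitely many coset reductions.
-/

open Cardinal Set

universe u v

namespace AbsBorel

variable {G : Type u} [Group G]

/-- Derivability of a triple with product `1` by coset reductions. -/
inductive Der (ρ a : ℕ → G → G) : G → G → G → Prop
  | direct (n : ℕ) (x : G) : Der ρ a x (a n x) (x * a n x)⁻¹
  | rot {x y z : G} : Der ρ a y z x → Der ρ a x y z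
  | move (k : ℕ) {x y z : G} : (ρ k y)⁻¹ * y = (ρ k z⁻¹)⁻¹ * z⁻¹ →
      Der ρ a x (ρ k y) (ρ k z⁻¹)⁻¹ → Der ρ a x y z

theorem Der.sound {ρ a : ℕ → G → G} {x y z : G} (h : Der ρ a x y z) : x * y * z = 1 := by
  induction h with
  | direct n x => group
  | @rot x y z _ ih =>
    calc x * y * z = x * (y * z * x) * x⁻¹ := by group
      _ = 1 := by rw [ih]; group
  | @move k x y z h _ ih =>
    have hy : y = ρ k y * ((ρ k y)⁻¹ * y) := by group
    have hz : z = ((ρ k z⁻¹)⁻¹ * z⁻¹)⁻¹ * (ρ k z⁻¹)⁻¹ := by group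
    calc x * y * z = x * (ρ k y * ((ρ k y)⁻¹ * y)) * (((ρ k z⁻¹)⁻¹ * z⁻¹)⁻¹ * (ρ k z⁻¹)⁻¹) := by
          rw [← hy, ← hz]
      _ = x * (ρ k y) * (ρ k z⁻¹)⁻¹ := by rw [h]; group
      _ = 1 := ih

/-- Representative of the right coset `H g`. -/
noncomputable def rep (H : Subgroup G) (g : G) : G :=
  (Quotient.mk (QuotientGroup.rightRel H) g).out

theorem rep_mem (H : Subgroup G) (g : G) : g * (rep H g)⁻¹ ∈ H := by
  have h := Quotient.mk_out (s := QuotientGroup.rightRel H) g
  exact QuotientGroup.rightRel_apply.1 h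

theorem rep_eq (H : Subgroup G) {g h : G} (hh : h * g⁻¹ ∈ H) : rep H g = rep H h := by
  unfold rep
  exact congrArg Quotient.out (Quotient.sound (QuotientGroup.rightRel_apply.2 hh))

section Chain

variable {J : Type v} [LinearOrder J] [WellFoundedLT J] (s : J → G)

/-- Subgroup generated by the elements with index at most `α`. -/
def K (α : J) : Subgroup G := Subgroup.closure (s '' Iic α)

/-- Subgroup generated by the elements with index below `α`. -/
def Lt (α : WithTop J) : Subgroup G := Subgroup.closure (s '' {β : J | (β : WithTop J) < α})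

omit [WellFoundedLT J] in
theorem K_mono {α β : J} (h : α ≤ β) : K s α ≤ K s β :=
  Subgroup.closure_mono (image_mono (Iic_subset_Iic.2 h))

omit [WellFoundedLT J] in
theorem K_le_Lt {α : J} {β : WithTop J} (h : (α : WithTop J) < β) : K s α ≤ Lt s β := by
  refine Subgroup.closure_mono (image_mono ?_)
  intro x hx
  exact lt_of_le_of_lt (WithTop.coe_le_coe.2 hx) h

open Classical in
/-- The level of an element. -/
noncomputable def lev (g : G) : WithTop J :=
  if h : ∃ α : J, g ∈ K s α then
    ((WellFounded.min (wellFounded_lt (α := J)) {α : J | g ∈ K s α} h : J) : WithTop J)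
  else ⊤

theorem lev_le_iff (g : G) (α : J) : lev s g ≤ (α : WithTop J) ↔ g ∈ K s α := by
  unfold lev
  split_ifs with h
  · rw [WithTop.coe_le_coe]
    constructor
    · intro h1
      exact K_mono s h1 (WellFounded.min_mem (wellFounded_lt (α := J)) {α : J | g ∈ K s α} h)
    · intro h1
      exact not_lt.1 (WellFounded.not_lt_min (wellFounded_lt (α := J)) {α : J | g ∈ K s α} h1)
  · constructor
    · intro h1
      exact absurd (top_le_iff.1 h1) (WithTop.coe_ne_top)
    · intro h1
      exact absurd ⟨α, h1⟩ h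

theorem lev_le_lev_of {g h : G} (H : ∀ α : J, h ∈ K s α → g ∈ K s α) : lev s g ≤ lev s h := by
  by_cases hh : lev s h = ⊤
  · rw [hh]; exact le_top
  · obtain ⟨α, hα⟩ := WithTop.ne_top_iff_exists.1 hh
    rw [← hα, lev_le_iff]
    apply H
    rw [← lev_le_iff, ← hα]

theorem lev_one_le (g : G) : lev s 1 ≤ lev s g :=
  lev_le_lev_of s fun _ _ => one_mem _

theorem lev_inv (g : G) : lev s g⁻¹ = lev s g :=
  le_antisymm (lev_le_lev_of s fun α h => inv_mem h)
    (lev_le_lev_of s fun α h => by simpa using inv_mem h)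

theorem lev_mul_le (g h : G) : lev s (g * h) ≤ max (lev s g) (lev s h) := by
  by_cases hh : max (lev s g) (lev s h) = ⊤
  · rw [hh]; exact le_top
  · obtain ⟨α, hα⟩ := WithTop.ne_top_iff_exists.1 hh
    rw [← hα, lev_le_iff]
    have h1 : lev s g ≤ (α : WithTop J) := by rw [hα]; exact le_max_left _ _
    have h2 : lev s h ≤ (α : WithTop J) := by rw [hα]; exact le_max_right _ _
    exact mul_mem ((lev_le_iff s g α).1 h1) ((lev_le_iff s h α).1 h2)

theorem mem_Lt_of_lev {g : G} {α : WithTop J} (h : lev s g < α) : g ∈ Lt s α := by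
  obtain ⟨β, hβ⟩ := WithTop.ne_top_iff_exists.1 (ne_top_of_lt h)
  have : g ∈ K s β := by rw [← lev_le_iff, hβ]
  exact K_le_Lt s (by rw [hβ]; exact h) this

theorem lev_of_mem_Lt {g : G} {α : WithTop J} (h : g ∈ Lt s α) : g = 1 ∨ lev s g < α := by
  have key : ∀ x ∈ Lt s α, x = 1 ∨ ∃ β : J, (β : WithTop J) < α ∧ x ∈ K s β := by
    intro x hx
    unfold Lt at hx
    induction hx using Subgroup.closure_induction with
    | mem x hx =>
      obtain ⟨β, hβ, rfl⟩ := hx
      exact Or.inr ⟨β, hβ, Subgroup.subset_closure ⟨β, self_mem_Iic, rfl⟩⟩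
    | one => exact Or.inl rfl
    | mul x y _ _ ihx ihy =>
      rcases ihx with rfl | ⟨β, hβ, hx⟩
      · simpa using ihy
      · rcases ihy with rfl | ⟨γ, hγ, hy⟩
        · exact Or.inr ⟨β, hβ, by simpa using hx⟩
        · refine Or.inr ⟨max β γ, ?_, mul_mem (K_mono s (le_max_left _ _) hx)
            (K_mono s (le_max_right _ _) hy)⟩
          rcases max_choice β γ with h | h <;> rw [h] <;> assumption
    | inv x _ ih =>
      rcases ih with rfl | ⟨β, hβ, hx⟩
      · exact Or.inl inv_one
      · exact Or.inr ⟨β, hβ, inv_mem hx⟩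
  rcases key g h with h | ⟨β, hβ, hg⟩
  · exact Or.inl h
  · exact Or.inr (lt_of_le_of_lt ((lev_le_iff s g β).2 hg) hβ)

/-- The coset reduction attached to a chain. -/
noncomputable def red (g : G) : G := g * (rep (Lt s (lev s g)) g)⁻¹

theorem red_mem (g : G) : red s g ∈ Lt s (lev s g) := rep_mem _ _

theorem red_inv_mul (g : G) : (red s g)⁻¹ * g = rep (Lt s (lev s g)) g := by
  unfold red; group

/-- In a triple with product one, the two top levels agree. -/
theorem lev_top {x y z : G} (h : x * y * z = 1) (hxy : lev s x < lev s y) :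
    lev s z = lev s y := by
  have hz : z = y⁻¹ * x⁻¹ := by
    have : z = (x * y)⁻¹ := (inv_eq_of_mul_eq_one_right h).symm
    rw [this]; group
  have hy : y = x⁻¹ * z⁻¹ := by rw [hz]; group
  apply le_antisymm
  · have := lev_mul_le s y⁻¹ x⁻¹
    rw [← hz, lev_inv, lev_inv, max_eq_left hxy.le] at this
    exact this
  · by_contra hlt
    have := lev_mul_le s x⁻¹ z⁻¹
    rw [← hy, lev_inv, lev_inv] at this
    exact absurd this (not_le.2 (max_lt hxy (not_le.1 hlt)))

theorem red_lt {x y : G} (hxy : lev s x < lev s y) {w : G} (hw : lev s w = lev s y) :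
    lev s (red s w) < lev s y := by
  rcases lev_of_mem_Lt s (red_mem s w) with h | h
  · rw [h]; exact lt_of_le_of_lt (lev_one_le s x) hxy
  · rwa [hw] at h

theorem red_eq {x y z : G} (h : x * y * z = 1) (hxy : lev s x < lev s y) :
    (red s y)⁻¹ * y = (red s z⁻¹)⁻¹ * z⁻¹ := by
  have hz : z⁻¹ = x * y := by
    rw [inv_eq_iff_eq_inv]; exact (inv_eq_of_mul_eq_one_right h).symm
  rw [red_inv_mul, red_inv_mul]
  have hl : lev s z⁻¹ = lev s y := by rw [lev_inv]; exact lev_top s h hxy
  rw [hl]
  apply rep_eq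
  rw [hz, mul_assoc, mul_inv_cancel, mul_one]
  exact mem_Lt_of_lev s hxy

theorem red_mul {x y z : G} (h : x * y * z = 1) (hxy : lev s x < lev s y) :
    x * red s y * (red s z⁻¹)⁻¹ = 1 := by
  have h1 := red_eq s h hxy
  have hy : y = red s y * ((red s y)⁻¹ * y) := by group
  have hz : z = ((red s z⁻¹)⁻¹ * z⁻¹)⁻¹ * (red s z⁻¹)⁻¹ := by group
  calc x * (red s y) * (red s z⁻¹)⁻¹
      = x * (red s y * ((red s y)⁻¹ * y)) * (((red s z⁻¹)⁻¹ * z⁻¹)⁻¹ * (red s z⁻¹)⁻¹) := by
        rw [h1]; group
    _ = 1 := by rw [← hy, ← hz]; exact h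

end Chain

/-- `Good H`: every triple of `H` with product one is derivable, for suitable functions. -/
def Good (H : Subgroup G) : Prop :=
  ∃ ρ a : ℕ → G → G, (∀ k, ∀ g ∈ H, ρ k g ∈ H) ∧
    ∀ x ∈ H, ∀ y ∈ H, ∀ z ∈ H, x * y * z = 1 → Der ρ a x y z

theorem good_of_countable (H : Subgroup G) (hH : (H : Set G).Countable) : Good H := by
  obtain ⟨f, hf⟩ := hH.exists_eq_range ⟨1, one_mem H⟩
  refine ⟨fun _ g => g, fun n _ => f n, fun _ _ h => h, ?_⟩
  intro x _ y hy z _ h
  have : y ∈ range f := by rw [← hf]; exact hy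
  obtain ⟨n, rfl⟩ := this
  have hz : z = (x * f n)⁻¹ := (inv_eq_of_mul_eq_one_right h).symm
  rw [hz]
  exact Der.direct (a := fun n _ => f n) n x

theorem mk_closure_lt {κ : Cardinal.{u}} (hκ : ℵ₀ < κ) (t : Set G) (ht : #t < κ) :
    #(Subgroup.closure t) < κ := by
  have h1 : #(Subgroup.closure t) ≤ #(FreeGroup t) := by
    rw [FreeGroup.closure_eq_range]
    exact Cardinal.mk_range_le
  refine lt_of_le_of_lt h1 ?_
  rcases isEmpty_or_nonempty t with h | h
  · refine lt_of_le_of_lt (mk_le_aleph0 (α := FreeGroup t)) hκ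
  · rw [Cardinal.mk_freeGroup]
    exact max_lt ht hκ

theorem good_all : ∀ (κ : Cardinal.{u}) (H : Subgroup G), #H = κ → Good H := by
  intro κ
  induction κ using WellFoundedLT.induction with
  | ind κ IH =>
  intro H hH
  by_cases hc : κ ≤ ℵ₀
  · apply good_of_countable
    rw [← Cardinal.le_aleph0_iff_set_countable]
    rw [← hH] at hc
    exact hc
  have hκ : ℵ₀ < κ := not_le.1 hc
  obtain ⟨e⟩ : Nonempty (κ.ord.ToType ≃ H) := by
    rw [← Cardinal.eq, mk_ord_toType, hH]
  let J := κ.ord.ToType
  let s : J → G := fun j => (e j : G)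
  have hsH : ∀ α : J, K s α ≤ H := by
    intro α
    unfold K
    rw [Subgroup.closure_le]
    rintro _ ⟨β, _, rfl⟩
    exact (e β).2
  have hLtH : ∀ α : WithTop J, Lt s α ≤ H := by
    intro α
    unfold Lt
    rw [Subgroup.closure_le]
    rintro _ ⟨β, _, rfl⟩
    exact (e β).2
  have hcard : ∀ α : J, Good (K s α) := by
    intro α
    refine IH _ ?_ (K s α) rfl
    apply mk_closure_lt hκ
    refine lt_of_le_of_lt Cardinal.mk_image_le ?_
    rw [← Iio_insert]
    refine lt_of_le_of_lt (Cardinal.mk_insert_le) ?_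
    exact Cardinal.add_lt_of_lt hκ.le (mk_Iio_toType_ord_lt α) (lt_of_lt_of_le one_lt_aleph0 hκ.le)
  choose ρ a hρ ha using hcard
  let R : WithTop J → ℕ → G → G := fun α => WithTop.recTopCoe (fun _ g => g) (fun α => ρ α) α
  let A : WithTop J → ℕ → G → G := fun α => WithTop.recTopCoe (fun _ g => g) (fun α => a α) α
  let ρ' : ℕ → G → G := fun k g => Nat.casesOn k (red s g) (fun k => R (lev s g) k g)
  let a' : ℕ → G → G := fun n g => A (lev s g) n g
  have main : ∀ α : J, ∀ x y z, x ∈ K s α → y ∈ K s α → z ∈ K s α → x * y * z = 1 →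
      Der ρ' a' x y z := by
    intro α
    induction α using WellFoundedLT.induction with
    | ind α IHα =>
    -- triples all of whose levels are below `α`
    have low : ∀ x y z, lev s x < (α : WithTop J) → lev s y < (α : WithTop J) →
        lev s z < (α : WithTop J) → x * y * z = 1 → Der ρ' a' x y z := by
      intro x y z hx hy hz h
      have hm : max (max (lev s x) (lev s y)) (lev s z) < (α : WithTop J) :=
        max_lt (max_lt hx hy) hz
      obtain ⟨β, hβ⟩ := WithTop.ne_top_iff_exists.1 (ne_top_of_lt hm)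
      have hβα : β < α := by rw [← hβ] at hm; exact WithTop.coe_lt_coe.1 hm
      refine IHα β hβα x y z ?_ ?_ ?_ h <;> rw [← lev_le_iff, hβ]
      · exact le_trans (le_max_left _ _) (le_max_left _ _)
      · exact le_trans (le_max_right _ _) (le_max_left _ _)
      · exact le_max_right _ _
    have core : ∀ x y z, y ∈ K s α → x * y * z = 1 → lev s x < lev s y →
        Der ρ' a' x y z := by
      intro x y z hy h hxy
      have hyα : lev s y ≤ (α : WithTop J) := (lev_le_iff s y α).2 hy
      have hz := lev_top s h hxy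
      refine Der.move 0 (red_eq s h hxy) ?_
      refine low _ _ _ (lt_of_lt_of_le hxy hyα) (lt_of_lt_of_le (red_lt s hxy rfl) hyα)
        ?_ (red_mul s h hxy)
      show lev s (red s z⁻¹)⁻¹ < _
      rw [lev_inv]
      exact lt_of_lt_of_le (red_lt s hxy (by rw [lev_inv, hz])) hyα
    have helper : ∀ x y z, x ∈ K s α → y ∈ K s α → z ∈ K s α → x * y * z = 1 →
        (lev s x = α ∧ lev s y = α ∧ lev s z = α) ∨ Der ρ' a' x y z := by
      intro x y z hx hy hz h
      have h2 : y * z * x = 1 := by
        calc y * z * x = x⁻¹ * (x * y * z) * x := by group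
          _ = 1 := by rw [h]; group
      have h3 : z * x * y = 1 := by
        calc z * x * y = y⁻¹ * (y * z * x) * y := by group
          _ = 1 := by rw [h2]; group
      by_cases c1 : lev s x < lev s y
      · exact Or.inr (core _ _ _ hy h c1)
      by_cases c2 : lev s y < lev s z
      · exact Or.inr (Der.rot (core _ _ _ hz h2 c2))
      by_cases c3 : lev s z < lev s x
      · exact Or.inr (Der.rot (Der.rot (core _ _ _ hx h3 c3)))
      have e1 : lev s x = lev s y :=
        le_antisymm (le_trans (not_lt.1 c3) (not_lt.1 c2)) (not_lt.1 c1)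
      have e2 : lev s y = lev s z :=
        le_antisymm (le_trans (not_lt.1 c1) (not_lt.1 c3)) (not_lt.1 c2)
      rcases lt_or_eq_of_le ((lev_le_iff s x α).2 hx) with hlt | heq
      · exact Or.inr (low _ _ _ hlt (by rw [← e1]; exact hlt) (by rw [← e2, ← e1]; exact hlt) h)
      · exact Or.inl ⟨heq, by rw [← e1]; exact heq, by rw [← e2, ← e1]; exact heq⟩
    have inner : ∀ x y z, Der (ρ α) (a α) x y z → x ∈ K s α → y ∈ K s α → z ∈ K s α →
        Der ρ' a' x y z := by
      intro x y z hD
      induction hD with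
      | direct n x =>
        intro hx hy hz
        rcases helper _ _ _ hx hy hz (by group) with ⟨h1, _, _⟩ | h
        · have : a' n x = a α n x := by
            show A (lev s x) n x = _
            rw [h1]
            rfl
          rw [← this]
          exact Der.direct n x
        · exact h
      | rot _ ih => exact fun hx hy hz => Der.rot (ih hy hz hx)
      | @move k x y z h1 h2 ih =>
        intro hx hy hz
        have hs := (Der.move k h1 h2).sound
        rcases helper _ _ _ hx hy hz hs with ⟨_, h4, h5⟩ | h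
        · have e1 : ρ' (k + 1) y = ρ α k y := by
            show R (lev s y) k y = _
            rw [h4]
            rfl
          have e2 : ρ' (k + 1) z⁻¹ = ρ α k z⁻¹ := by
            show R (lev s z⁻¹) k z⁻¹ = _
            rw [lev_inv, h5]
            rfl
          refine Der.move (k + 1) ?_ ?_
          · rw [e1, e2]; exact h1
          · rw [e1, e2]
            exact ih hx (hρ α k y hy) (inv_mem (hρ α k z⁻¹ (inv_mem hz)))
        · exact h
    intro x y z hx hy hz h
    exact inner x y z (ha α x hx y hy z hz h) hx hy hz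
  have hlev : ∀ g ∈ H, ∃ α : J, g ∈ K s α := by
    intro g hg
    refine ⟨e.symm ⟨g, hg⟩, Subgroup.subset_closure ⟨e.symm ⟨g, hg⟩, self_mem_Iic, ?_⟩⟩
    show ((e (e.symm ⟨g, hg⟩) : H) : G) = g
    rw [Equiv.apply_symm_apply]
  refine ⟨ρ', a', ?_, ?_⟩
  · intro k g hg
    cases k with
    | zero => exact hLtH _ (red_mem s g)
    | succ k =>
      obtain ⟨α, hα⟩ := hlev g hg
      have h1 : lev s g ≤ (α : WithTop J) := (lev_le_iff s g α).2 hα
      obtain ⟨β, hβ⟩ := WithTop.ne_top_iff_exists.1 (ne_top_of_le_ne_top WithTop.coe_ne_top h1)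
      have h2 : g ∈ K s β := by rw [← lev_le_iff, hβ]
      have : ρ' (k + 1) g = ρ β k g := by
        show R (lev s g) k g = _
        rw [← hβ]
        rfl
      rw [this]
      exact hsH β (hρ β k g h2)
  · intro x hx y hy z hz h
    obtain ⟨α, hα⟩ := hlev x hx
    obtain ⟨β, hβ⟩ := hlev y hy
    obtain ⟨γ, hγ⟩ := hlev z hz
    exact main (max (max α β) γ) x y z
      (K_mono s (le_trans (le_max_left _ _) (le_max_left _ _)) hα)
      (K_mono s (le_trans (le_max_right _ _) (le_max_left _ _)) hβ)
      (K_mono s (le_max_right _ _) hγ) h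

end AbsBorel
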