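import Mathlib

/-!
# Abstractly Borelian groups: definitions
-/

open Cardinal Set MeasureTheory

namespace AbsBorel

/-- The σ-algebra on `E` generated by the sequence `A`. -/
@[reducible] def genSigma {E : Type} (A : ℕ → Set E) : MeasurableSpace E :=
  MeasurableSpace.generateFrom (range A)

/-- A sequence is measurable if there is a probability measure on the σ-algebra it generates
which vanishes on all singletons belonging to that σ-algebra. -/
def MeasurableSeq {E : Type} (A : ℕ → Set E) : Prop :=
  ∃ m : @Measure E (genSigma A), m univ = 1 ∧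
    ∀ x : E, MeasurableSet[genSigma A] {x} → m {x} = 0

/-- The σ-algebra on `E × E × E` generated by the boxes `B₁ × B₂ × B₃` with sides in the
σ-algebra generated by `A`. -/
@[reducible] def boxSigma {E : Type} (A : ℕ → Set E) : MeasurableSpace (E × E × E) :=
  MeasurableSpace.generateFrom {Z | ∃ B₁ B₂ B₃ : Set E, MeasurableSet[genSigma A] B₁ ∧
    MeasurableSet[genSigma A] B₂ ∧ MeasurableSet[genSigma A] B₃ ∧ Z = B₁ ×ˢ (B₂ ×ˢ B₃)}

/-- `Z` is Borelian with respect to `A`. -/
def Borelian {E : Type} (A : ℕ → Set E) (Z : Set (E × E × E)) : Prop :=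
  MeasurableSet[boxSigma A] Z

/-- The representation of a group operation. -/
def graph (E : Type) [Group E] : Set (E × E × E) := {ω | ω.1 * ω.2.1 = ω.2.2}

/-- The group is abstractly Borelian. -/
def AbstractlyBorelian (E : Type) [Group E] : Prop :=
  ∃ A : ℕ → Set E, MeasurableSeq A ∧ Borelian A (graph E)

end AbsBorel
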