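import Pool.Agent.AbsBorel.Graph
import Pool.Agent.AbsBorel.Defs

/-!
# Sequences, measures, and the main theorem
-/

open Cardinal Set MeasureTheory

namespace AbsBorel

theorem borelian_of_prod {E : Type} (A : ℕ → Set E) (Z : Set (E × E × E))
    (h : letI := genSigma A; MeasurableSet Z) : Borelian A Z := by
  have hle : (@Prod.instMeasurableSpace E (E × E) (genSigma A)
      (@Prod.instMeasurableSpace E E (genSigma A) (genSigma A))) ≤ boxSigma A := by
    refine sup_le ?_ ?_
    · rintro _ ⟨B, hB, rfl⟩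
      refine MeasurableSpace.measurableSet_generateFrom ⟨B, univ, univ, hB,
        @MeasurableSet.univ _ (genSigma A), @MeasurableSet.univ _ (genSigma A), ?_⟩
      ext ⟨x, y, z⟩; simp
    · rw [MeasurableSpace.comap_le_iff_le_map]
      refine sup_le ?_ ?_
      · rintro _ ⟨B, hB, rfl⟩
        refine MeasurableSpace.measurableSet_generateFrom ⟨univ, B, univ,
          @MeasurableSet.univ _ (genSigma A), hB, @MeasurableSet.univ _ (genSigma A), ?_⟩
        ext ⟨x, y, z⟩; simp
      · rintro _ ⟨B, hB, rfl⟩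
        refine MeasurableSpace.measurableSet_generateFrom ⟨univ, univ, B,
          @MeasurableSet.univ _ (genSigma A), @MeasurableSet.univ _ (genSigma A), hB, ?_⟩
        ext ⟨x, y, z⟩; simp
  exact hle _ h

theorem exists_gen {G : Type} {I : Type} [Countable I] [Nonempty I] (h : I → G → ℝ) :
    ∃ A : ℕ → Set G, (∀ i, @Measurable G ℝ (genSigma A) _ (h i)) ∧
      ∀ n, ∃ i, ∃ q : ℚ, A n = h i ⁻¹' Iio (q : ℝ) := by
  obtain ⟨e, he⟩ := exists_surjective_nat (I × ℚ)
  let A : ℕ → Set G := fun n => h (e n).1 ⁻¹' Iio ((e n).2 : ℝ)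
  refine ⟨A, ?_, fun n => ⟨(e n).1, (e n).2, rfl⟩⟩
  intro i
  letI : MeasurableSpace G := genSigma A
  apply measurable_of_Iio
  intro x
  have : h i ⁻¹' Iio x = ⋃ q : {q : ℚ // (q : ℝ) < x}, h i ⁻¹' Iio ((q : ℚ) : ℝ) := by
    ext g
    simp only [mem_preimage, mem_Iio, mem_iUnion]
    constructor
    · intro hg
      obtain ⟨q, h1, h2⟩ := exists_rat_btwn hg
      exact ⟨⟨q, h2⟩, h1⟩
    · rintro ⟨⟨q, h2⟩, h1⟩
      exact lt_trans h1 h2
  rw [this]
  refine MeasurableSet.iUnion fun q => ?_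
  obtain ⟨n, hn⟩ := he (i, (q : ℚ))
  apply MeasurableSpace.measurableSet_generateFrom
  refine ⟨n, ?_⟩
  show h (e n).1 ⁻¹' Iio ((e n).2 : ℝ) = _
  rw [hn]

open Classical in
theorem exists_seq {G : Type} [Group G] {J : Type} [LinearOrder J] [WellFoundedLT J]
    {j : G → ℝ} (hj : Function.Injective j) {s : J → G} (hs : Indep s)
    (hsq : ∀ α β, s α * s α ≠ s β)
    (hD : (∃ v, ∀ α, s α * s α = v) ∨ Function.Injective fun α => s α * s α)
    {c : ℝ} (hc : ∀ g, g ∈ range s ↔ j g < c) :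
    ∃ A : ℕ → Set G, Borelian A (graph G) ∧
      ∀ n, (∃ q : ℚ, A n = j ⁻¹' Iio (q : ℝ)) ∨ range s ⊆ A n ∨ Disjoint (range s) (A n) := by
  obtain ⟨ρ, a, _, hder⟩ := good_all _ (⊤ : Subgroup G) rfl
  let comp : List (ℕ × ℕ) → (G → G) :=
    fun l => l.foldr (fun i f => U ρ a s (sq s) i.1 i.2 ∘ f) id
  let F : Set (G → G) := range comp
  let h : Option (List (ℕ × ℕ)) → G → ℝ := fun i => Option.casesOn i j
    (fun l g => if g ∈ range s then 0 else j (comp l g))
  obtain ⟨A, hA, hA'⟩ := exists_gen h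
  refine ⟨A, ?_, ?_⟩
  · apply borelian_of_prod
    letI : MeasurableSpace G := genSigma A
    have hjm : Measurable j := hA none
    refine meas_graph (F := F) hj hjm ?_ hs hsq hD
      (fun x y z h => hder x (Subgroup.mem_top _) y (Subgroup.mem_top _) z
        (Subgroup.mem_top _) h) ?_ ⟨[], rfl⟩ ?_
    · have : range s = j ⁻¹' Iio c := by ext g; exact hc g
      rw [this]
      exact hjm measurableSet_Iio
    · rintro i n _ ⟨l, rfl⟩
      exact ⟨(i, n) :: l, rfl⟩
    · rintro _ ⟨l, rfl⟩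
      refine ⟨h (some l), hA (some l), ?_⟩
      intro g hg
      show (if g ∈ range s then 0 else j (comp l g)) = _
      rw [if_neg hg]
  · intro n
    obtain ⟨i, q, hn⟩ := hA' n
    cases i with
    | none => exact Or.inl ⟨q, hn⟩
    | some l =>
      right
      by_cases hq : (0 : ℝ) < q
      · left
        intro g hg
        rw [hn]
        show (if g ∈ range s then 0 else j (comp l g)) < (q : ℝ)
        rw [if_pos hg]; exact hq
      · right
        rw [Set.disjoint_left]
        intro g hg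
        rw [hn]
        show ¬ ((if g ∈ range s then 0 else j (comp l g)) < (q : ℝ))
        rw [if_pos hg]; exact hq

/-- A set of reals of positive finite outer measure carries a diffuse probability measure. -/
theorem exists_measure (Y : Set ℝ) (h0 : volume Y ≠ 0) (hfin : volume Y ≠ ⊤) :
    ∃ ν : Measure Y, ν univ = 1 ∧ ∀ y, ν {y} = 0 := by
  have hle : (inferInstance : MeasurableSpace Y) ≤
      (OuterMeasure.comap (Subtype.val : Y → ℝ) (volume : Measure ℝ).toOuterMeasure).caratheodory := by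
    rintro _ ⟨B, hB, rfl⟩
    intro t
    simp only [OuterMeasure.comap_apply]
    have h1 : (Subtype.val '' (t ∩ Subtype.val ⁻¹' B) : Set ℝ) = Subtype.val '' t ∩ B :=
      image_inter_preimage _ _ _
    have h2 : (Subtype.val '' (t \ Subtype.val ⁻¹' B) : Set ℝ) = Subtype.val '' t \ B := by
      ext y; constructor
      · rintro ⟨z, ⟨hz1, hz2⟩, rfl⟩; exact ⟨⟨z, hz1, rfl⟩, hz2⟩
      · rintro ⟨⟨z, hz1, rfl⟩, hz2⟩; exact ⟨z, ⟨hz1, hz2⟩, rfl⟩
    rw [h1, h2]
    exact (measure_inter_add_sdiff _ hB).symm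
  let ν0 : Measure Y := OuterMeasure.toMeasure _ hle
  have hν : ∀ t : Set Y, MeasurableSet t → ν0 t = volume (Subtype.val '' t : Set ℝ) := by
    intro t ht
    show OuterMeasure.toMeasure _ hle t = _
    rw [toMeasure_apply _ _ ht]
    rfl
  refine ⟨(volume Y)⁻¹ • ν0, ?_, ?_⟩
  · rw [Measure.smul_apply, hν _ MeasurableSet.univ, image_univ, Subtype.range_coe, smul_eq_mul,
      ENNReal.inv_mul_cancel h0 hfin]
  · intro y
    rw [Measure.smul_apply, hν _ (measurableSet_singleton y), image_singleton]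
    simp

theorem exists_indep {G : Type} [Group G] (κ : Cardinal.{0}) (hκ : ℵ₀ < κ) (X : Set G)
    (hX : κ ≤ #X) (hbad : ∀ P : Set G, P ⊆ X → #P < κ → #{x : G | x ∈ X ∧ x * x ∈ P} < κ) :
    ∃ s : κ.ord.ToType → G, (∀ α, s α ∈ X) ∧ Indep s ∧ ∀ α β, s α * s α ≠ s β := by
  classical
  let J := κ.ord.ToType
  let pick : Set G → G := fun P =>
    if h : ∃ x, x ∈ X ∧ x ∉ Subgroup.closure P ∧ x * x ∉ P then h.choose else 1
  let s : J → G := WellFounded.fix (wellFounded_lt (α := J))
    (fun α f => pick {g | ∃ β, ∃ h : β < α, g = f β h})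
  have hs : ∀ α, s α = pick (s '' Iio α) := by
    intro α
    show WellFounded.fix _ _ α = _
    rw [WellFounded.fix_eq]
    congr 1
    ext g
    constructor
    · rintro ⟨β, h, rfl⟩; exact ⟨β, h, rfl⟩
    · rintro ⟨β, h, rfl⟩; exact ⟨β, h, rfl⟩
  have hex : ∀ P : Set G, P ⊆ X → #P < κ →
      ∃ x, x ∈ X ∧ x ∉ Subgroup.closure P ∧ x * x ∉ P := by
    intro P hPX hP
    by_contra hcon
    push Not at hcon
    have hsub : X ⊆ (Subgroup.closure P : Set G) ∪ {x : G | x ∈ X ∧ x * x ∈ P} := by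
      intro x hx
      by_cases h1 : x ∈ Subgroup.closure P
      · exact Or.inl h1
      · exact Or.inr ⟨hx, hcon x hx h1⟩
    have h1 : #X ≤ #(Subgroup.closure P) + #{x : G | x ∈ X ∧ x * x ∈ P} :=
      le_trans (Cardinal.mk_le_mk_of_subset hsub) (Cardinal.mk_union_le _ _)
    have h2 : #(Subgroup.closure P) + #{x : G | x ∈ X ∧ x * x ∈ P} < κ :=
      Cardinal.add_lt_of_lt hκ.le (mk_closure_lt hκ P hP) (hbad P hPX hP)
    exact absurd (lt_of_le_of_lt h1 h2) (not_lt.2 hX)
  have hspec : ∀ P : Set G, P ⊆ X → #P < κ →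
      pick P ∈ X ∧ pick P ∉ Subgroup.closure P ∧ pick P * pick P ∉ P := by
    intro P h1 h2
    have h3 := hex P h1 h2
    have h4 : pick P = h3.choose := dif_pos h3
    rw [h4]
    exact h3.choose_spec
  have hcard : ∀ α : J, #(s '' Iio α) < κ := fun α =>
    lt_of_le_of_lt Cardinal.mk_image_le (mk_Iio_toType_ord_lt α)
  have hmem : ∀ α : J, s α ∈ X := by
    intro α
    induction α using WellFoundedLT.induction with
    | ind α IH =>
      rw [hs α]
      refine (hspec _ ?_ (hcard α)).1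
      rintro _ ⟨β, hβ, rfl⟩
      exact IH β hβ
  have hsub : ∀ α : J, s '' Iio α ⊆ X := by
    rintro α _ ⟨β, _, rfl⟩
    exact hmem β
  have hLt : ∀ α : J, Lt s (α : WithTop J) = Subgroup.closure (s '' Iio α) := by
    intro α
    unfold Lt
    congr 2
    ext β
    simp
  have hind : Indep s := by
    intro α
    rw [hLt]
    have := (hspec _ (hsub α) (hcard α)).2.1
    rwa [← hs α] at this
  refine ⟨s, hmem, hind, ?_⟩
  intro α β h
  have hαsq := (hspec _ (hsub α) (hcard α)).2.2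
  rw [← hs α] at hαsq
  rcases lt_trichotomy β α with h1 | h1 | h1
  · exact hαsq ⟨β, h1, h.symm⟩
  · subst h1
    exact hind.ne_one β (by simpa using h)
  · apply hind β
    rw [← h, hLt]
    have : s α ∈ Subgroup.closure (s '' Iio β) := Subgroup.subset_closure ⟨α, h1, rfl⟩
    exact mul_mem this this


open Classical in
theorem exists_unit (Y : Set ℝ) (h : volume Y ≠ 0) :
    ∃ n : ℤ, volume (Y ∩ Ico (n : ℝ) (n + 1)) ≠ 0 := by
  by_contra hcon
  push Not at hcon
  apply h
  have : Y = ⋃ n : ℤ, Y ∩ Ico (n : ℝ) (n + 1) := by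
    rw [← inter_iUnion, iUnion_Ico_intCast, inter_univ]
  rw [this]
  exact measure_iUnion_null hcon

open Classical in
theorem main_aux {G : Type} [Group G] (hG : #G = 𝔠) (X : Set G)
    (hX : (∃ v, v ∉ X ∧ ∀ x ∈ X, x * x = v) ∨ InjOn (fun x => x * x) X)
    (Y : Set ℝ) (hYX : #Y ≤ #X) (hY : volume Y ≠ 0) : AbstractlyBorelian G := by
  obtain ⟨n, hn⟩ := exists_unit Y hY
  set Y' : Set ℝ := Y ∩ Ico (n : ℝ) (n + 1) with hY'
  have hfin : volume Y' ≠ ⊤ := by
    refine ne_top_of_le_ne_top ?_ (measure_mono (inter_subset_right : Y' ⊆ Ico (n : ℝ) (n + 1)))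
    rw [Real.volume_Ico]; exact ENNReal.ofReal_ne_top
  obtain ⟨ν, hν1, hν0⟩ := exists_measure Y' hn hfin
  have hκ : ℵ₀ < #Y' := by
    rw [← not_le, Cardinal.le_aleph0_iff_set_countable]
    intro h
    exact hn (h.measure_zero volume)
  have hκX : #Y' ≤ #X := le_trans (Cardinal.mk_le_mk_of_subset inter_subset_left) hYX
  obtain ⟨s, hsX, hs, hsq⟩ := exists_indep #Y' hκ X hκX (by
    intro P hP hPκ
    rcases hX with ⟨v, hv, hv'⟩ | hinj
    · have : {x : G | x ∈ X ∧ x * x ∈ P} = ∅ := by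
        ext x
        simp only [mem_ofPred_eq, mem_empty_iff_false, iff_false, not_and]
        intro hx hxP
        exact hv (hP (by rw [← hv' x hx]; exact hxP))
      rw [this, Cardinal.mk_emptyCollection]
      exact lt_trans Cardinal.aleph0_pos hκ
    · refine lt_of_le_of_lt ?_ hPκ
      refine Cardinal.mk_le_of_injective (f := fun x : {x : G | x ∈ X ∧ x * x ∈ P} =>
        (⟨(x : G) * x, x.2.2⟩ : P)) ?_
      intro x y hxy
      exact Subtype.ext (hinj x.2.1 y.2.1 (congrArg Subtype.val hxy)))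
  obtain ⟨e⟩ : Nonempty ((#Y').ord.ToType ≃ Y') := by
    rw [← Cardinal.eq, mk_ord_toType]
  obtain ⟨ι⟩ : Nonempty (G ≃ Icc ((n : ℝ) + 2) (n + 3)) := by
    rw [← Cardinal.eq, hG, Cardinal.mk_Icc_real (by linarith)]
  let j : G → ℝ := Function.extend s (fun α => (e α : ℝ)) (fun g => (ι g : ℝ))
  have hj1 : ∀ α, j (s α) = e α := fun α => hs.inj.extend_apply _ _ α
  have hj2 : ∀ g, g ∉ range s → j g = ι g := fun g hg =>
    Function.extend_apply' _ _ _ (by rintro ⟨α, hα⟩; exact hg ⟨α, hα⟩)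
  have hlow : ∀ g, g ∈ range s → j g < n + 1 := by
    rintro _ ⟨α, rfl⟩
    rw [hj1]; exact (e α).2.2.2
  have hhigh : ∀ g, g ∉ range s → (n : ℝ) + 2 ≤ j g := by
    intro g hg
    rw [hj2 g hg]; exact (ι g).2.1
  have hj : Function.Injective j := by
    intro g h hgh
    by_cases h1 : g ∈ range s <;> by_cases h2 : h ∈ range s
    · obtain ⟨α, rfl⟩ := h1
      obtain ⟨β, rfl⟩ := h2
      rw [hj1, hj1] at hgh
      rw [e.injective (Subtype.ext hgh)]
    · have := hlow g h1; have := hhigh h h2; linarith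
    · have := hlow h h2; have := hhigh g h1; linarith
    · rw [hj2 g h1, hj2 h h2] at hgh
      exact ι.injective (Subtype.ext hgh)
  have hc : ∀ g, g ∈ range s ↔ j g < n + 3 / 2 := by
    intro g
    constructor
    · intro h; have := hlow g h; linarith
    · intro h; by_contra h2; have := hhigh g h2; linarith
  have hD : (∃ v, ∀ α, s α * s α = v) ∨ Function.Injective fun α => s α * s α := by
    rcases hX with ⟨v, _, hv'⟩ | hinj
    · exact Or.inl ⟨v, fun α => hv' _ (hsX α)⟩
    · exact Or.inr fun α β h => hs.inj (hinj (hsX α) (hsX β) h)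
  obtain ⟨A, hA1, hA2⟩ := exists_seq hj hs hsq hD hc
  refine ⟨A, ?_, hA1⟩
  let ψ : Y' → G := fun y => s (e.symm y)
  have hψj : ∀ y, j (ψ y) = y := by
    intro y
    show j (s (e.symm y)) = y
    rw [hj1, Equiv.apply_symm_apply]
  have hψ : @Measurable Y' G _ (genSigma A) ψ := by
    apply measurable_generateFrom
    rintro _ ⟨m, rfl⟩
    rcases hA2 m with ⟨q, hq⟩ | h | h
    · rw [hq]
      have : ψ ⁻¹' (j ⁻¹' Iio (q : ℝ)) = Subtype.val ⁻¹' Iio (q : ℝ) := by
        ext y
        simp only [mem_preimage, hψj]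
      rw [this]
      exact measurable_subtype_coe measurableSet_Iio
    · have : ψ ⁻¹' (A m) = Set.univ := by
        ext y
        exact ⟨fun _ => trivial, fun _ => h ⟨_, rfl⟩⟩
      rw [this]; exact MeasurableSet.univ
    · have : ψ ⁻¹' (A m) = ∅ := by
        ext y
        exact ⟨fun hy => (Set.disjoint_left.1 h ⟨_, rfl⟩ hy).elim, fun hy => hy.elim⟩
      rw [this]; exact MeasurableSet.empty
  refine ⟨@Measure.map Y' G _ (genSigma A) ψ ν, ?_, ?_⟩
  · rw [@Measure.map_apply _ _ _ (genSigma A) _ _ hψ _ (@MeasurableSet.univ _ (genSigma A))]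
    exact hν1
  · intro x hx
    rw [@Measure.map_apply _ _ _ (genSigma A) _ _ hψ _ hx]
    by_cases h : ∃ y, ψ y = x
    · obtain ⟨y, rfl⟩ := h
      have : ψ ⁻¹' {ψ y} = {y} := by
        ext z
        constructor
        · intro hz
          have hz : ψ z = ψ y := hz
          have := congrArg j hz
          rw [hψj, hψj] at this
          exact Subtype.ext this
        · rintro rfl; rfl
      rw [this]; exact hν0 y
    · have : ψ ⁻¹' {x} = ∅ := by
        ext z
        exact ⟨fun hz => h ⟨z, hz⟩, fun hz => hz.elim⟩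
      rw [this]; exact measure_empty

theorem exists_X {G : Type} [Group G] (κ : Cardinal.{0}) (hκ : ℵ₀ < κ)
    (h : κ ≤ #(range fun x : G => x * x) ∨ ∃ v : G, κ ≤ #{x : G | x * x = v}) :
    ∃ X : Set G, κ ≤ #X ∧
      ((∃ v, v ∉ X ∧ ∀ x ∈ X, x * x = v) ∨ InjOn (fun x => x * x) X) := by
  rcases h with h | ⟨v, h⟩
  · choose r hr using fun y : range fun x : G => x * x => y.2
    have hinj : Function.Injective r := by
      intro y z hyz
      apply Subtype.ext
      rw [← hr y, ← hr z, hyz]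
    refine ⟨range r, ?_, Or.inr ?_⟩
    · rw [Cardinal.mk_range_eq r hinj]; exact h
    · rintro _ ⟨y, rfl⟩ _ ⟨z, rfl⟩ hyz
      have h1 := hr y
      have h2 := hr z
      simp only at h1 h2 hyz
      rw [h1, h2] at hyz
      rw [Subtype.ext hyz]
  · refine ⟨{x : G | x * x = v} \ {v}, ?_, Or.inl ⟨v, fun h => h.2 rfl, fun x hx => hx.1⟩⟩
    by_contra hlt
    rw [not_le] at hlt
    have h1 : #{x : G | x * x = v} ≤ #(({x : G | x * x = v} \ {v} : Set G)) + #({v} : Set G) := by
      refine le_trans (Cardinal.mk_le_mk_of_subset ?_) (Cardinal.mk_union_le _ _)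
      intro x hx
      by_cases hxv : x = v
      · exact Or.inr hxv
      · exact Or.inl ⟨hx, hxv⟩
    have h2 : #(({x : G | x * x = v} \ {v} : Set G)) + #({v} : Set G) < κ := by
      refine Cardinal.add_lt_of_lt hκ.le hlt ?_
      rw [Cardinal.mk_singleton]
      exact lt_trans Cardinal.one_lt_aleph0 hκ
    exact absurd (lt_of_le_of_lt h1 h2) (not_lt.2 h)

theorem squares {G : Type} [Group G] (κ : Cardinal.{0}) (hκ : κ.IsRegular) (hG : κ ≤ #G) :
    κ ≤ #(range fun x : G => x * x) ∨ ∃ v : G, κ ≤ #{x : G | x * x = v} := by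
  by_cases h : κ ≤ #(range fun x : G => x * x)
  · exact Or.inl h
  right
  obtain ⟨⟨v, _⟩, hv⟩ := Cardinal.infinite_pigeonhole_card
    (fun x : G => (⟨x * x, x, rfl⟩ : range fun x : G => x * x)) κ hG hκ.aleph0_le
    (by rw [hκ.cof_ord]; exact not_le.1 h)
  refine ⟨v, hv.trans (Cardinal.mk_le_mk_of_subset ?_)⟩
  intro x hx
  exact congrArg Subtype.val hx


/-- In ZFC, the representation of every group of size `𝔠` is Borelian with respect to some
sequence of sets. -/
theorem borelian_some (G : Type) [Group G] (hG : #G = 𝔠) :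
    ∃ A : ℕ → Set G, Borelian A (graph G) := by
  obtain ⟨ι⟩ : Nonempty (G ≃ Icc (0 : ℝ) 1) := by
    rw [← Cardinal.eq, hG, Cardinal.mk_Icc_real (by norm_num)]
  let s : PEmpty → G := fun x => x.elim
  have hs : Indep s := fun α => α.elim
  obtain ⟨A, hA, _⟩ := exists_seq (j := fun g => (ι g : ℝ))
    (fun g h hgh => ι.injective (Subtype.ext hgh)) hs (fun α => α.elim)
    (Or.inr (fun α => α.elim)) (c := 0) (by
      intro g
      constructor
      · rintro ⟨α, _⟩; exact α.elim
      · intro h; exact absurd h (not_lt.2 (ι g).2.1))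
  exact ⟨A, hA⟩

theorem abstractlyBorelian_of_squares (G : Type) [Group G] (hG : #G = 𝔠)
    (h : #(range fun x : G => x * x) = 𝔠 ∨ ∃ v : G, #{x : G | x * x = v} = 𝔠) :
    AbstractlyBorelian G := by
  obtain ⟨X, hX1, hX2⟩ := exists_X (G := G) 𝔠 Cardinal.aleph0_lt_continuum (by
    rcases h with h | ⟨v, h⟩
    · exact Or.inl h.ge
    · exact Or.inr ⟨v, h.ge⟩)
  refine main_aux hG X hX2 Set.univ ?_ ?_
  · rw [Cardinal.mk_univ_real]; exact hX1
  · rw [Real.volume_univ]; exact ENNReal.top_ne_zero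

theorem abstractlyBorelian_of_regular
    (hc : Cardinal.IsRegular (𝔠 : Cardinal.{0}) ∨ ∃ Y : Set ℝ, #Y < 𝔠 ∧ volume Y ≠ 0)
    (G : Type) [Group G] (hG : #G = 𝔠) : AbstractlyBorelian G := by
  rcases hc with hc | ⟨Y, hY1, hY2⟩
  · obtain ⟨X, hX1, hX2⟩ := exists_X (G := G) 𝔠 Cardinal.aleph0_lt_continuum
      (squares 𝔠 hc hG.ge)
    refine main_aux hG X hX2 Set.univ ?_ ?_
    · rw [Cardinal.mk_univ_real]; exact hX1
    · rw [Real.volume_univ]; exact ENNReal.top_ne_zero
  · have hY : ℵ₀ < #Y := by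
      rw [← not_le, Cardinal.le_aleph0_iff_set_countable]
      intro h
      exact hY2 (h.measure_zero volume)
    obtain ⟨X, hX1, hX2⟩ := exists_X (G := G) (Order.succ #Y)
      (lt_trans hY (Order.lt_succ _)) (squares _ (Cardinal.isRegular_succ hY.le) (by
        rw [hG]; exact Order.succ_le_of_lt hY1))
    exact main_aux hG X hX2 Y (le_trans (Order.le_succ _) hX1) hY2

/-- Every abelian group of size `𝔠` is abstractly Borelian (in ZFC). -/
theorem abstractlyBorelian_of_comm (G : Type) [CommGroup G] (hG : #G = 𝔠) :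
    AbstractlyBorelian G := by
  apply abstractlyBorelian_of_squares G hG
  by_contra hcon
  push Not at hcon
  obtain ⟨h1, h2⟩ := hcon
  have h1' : #(range fun x : G => x * x) < 𝔠 :=
    lt_of_le_of_ne (le_trans Cardinal.mk_range_le hG.le) h1
  have h2' : #{x : G | x * x = 1} < 𝔠 :=
    lt_of_le_of_ne (le_trans (Cardinal.mk_set_le _) hG.le) (h2 1)
  choose r hr using fun y : range fun x : G => x * x => y.2
  have : #G ≤ #((range fun x : G => x * x) × {x : G | x * x = 1}) := by
    refine Cardinal.mk_le_of_injective (f := fun g : G =>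
      ((⟨g * g, g, rfl⟩ : range fun x : G => x * x),
        (⟨g * (r ⟨g * g, g, rfl⟩)⁻¹, ?_⟩ : {x : G | x * x = 1}))) ?_
    · have h := hr ⟨g * g, g, rfl⟩
      simp only at h
      show g * (r ⟨g * g, g, rfl⟩)⁻¹ * (g * (r ⟨g * g, g, rfl⟩)⁻¹) = 1
      calc g * (r ⟨g * g, g, rfl⟩)⁻¹ * (g * (r ⟨g * g, g, rfl⟩)⁻¹)
          = (g * g) * (r ⟨g * g, g, rfl⟩ * r ⟨g * g, g, rfl⟩)⁻¹ := by
            rw [mul_inv]; exact mul_mul_mul_comm _ _ _ _
        _ = 1 := by rw [h, mul_inv_cancel]
    · intro g h hgh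
      have h3 := congrArg (fun p => (p.1 : G)) hgh
      have h4 := congrArg (fun p => (p.2 : G)) hgh
      simp only at h3 h4
      have h5 : (⟨g * g, g, rfl⟩ : range fun x : G => x * x) = ⟨h * h, h, rfl⟩ := Subtype.ext h3
      rw [h5] at h4
      exact mul_right_cancel h4
  rw [hG, Cardinal.mk_prod, Cardinal.lift_id, Cardinal.lift_id] at this
  exact absurd this (not_le.2 (Cardinal.mul_lt_of_lt Cardinal.aleph0_le_continuum h1' h2'))

end AbsBorel
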