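import Pool.Agent.AbsBorel.Meas

/-!
# The graph is measurable
-/

open Cardinal Set

universe u v

set_option linter.unusedSectionVars false

namespace AbsBorel

variable {G : Type u} [Group G] {J : Type v} [LinearOrder J] [WellFoundedLT J]

/-- The countably many unary functions used in the reductions. -/
noncomputable def U (ρ a : ℕ → G → G) (s : J → G) (p : G → G) : ℕ → ℕ → (G → G)
  | 0, n => a n
  | 1, n => fun x => (x * a n x)⁻¹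
  | 2, k => ρ k
  | 3, k => fun x => (ρ k x)⁻¹ * x
  | 4, k => fun x => (ρ k x⁻¹)⁻¹
  | 5, k => fun x => (ρ k x⁻¹)⁻¹ * x⁻¹
  | 6, _ => fun x => x⁻¹
  | 7, _ => sig s
  | 8, _ => fun x => (sig s x * x)⁻¹
  | 9, _ => fun x => (x * sig s x)⁻¹
  | 10, _ => red s
  | 11, _ => fun x => (red s x)⁻¹ * x
  | 12, _ => fun x => (red s x⁻¹)⁻¹
  | 13, _ => fun x => (red s x⁻¹)⁻¹ * x⁻¹
  | 14, _ => fun x => (sig s x)⁻¹ * x
  | 15, _ => fun x => x * (sig s x)⁻¹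
  | 16, _ => fun x => sig s x * x
  | 17, _ => fun x => sig s x * x⁻¹
  | 18, _ => fun x => x * sig s x
  | 19, _ => fun x => x⁻¹ * sig s x
  | 20, _ => p
  | _, _ => id

section Measurable

variable [MeasurableSpace G] {j : G → ℝ} {S : Set G}

/-- `f` agrees off `S` with a measurable function (after composing with `j`). -/
def Lift (j : G → ℝ) (S : Set G) (f : G → G) : Prop :=
  ∃ f' : G → ℝ, Measurable f' ∧ ∀ g ∉ S, f' g = j (f g)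

variable {Ω : Type*} [MeasurableSpace Ω]

theorem meas_eq (hj : Function.Injective j) (hS : MeasurableSet S) {X Y : Ω → G}
    (hX : Measurable X) (hY : Measurable Y) {f f' : G → G} (hf : Lift j S f)
    (hf' : Lift j S f') :
    MeasurableSet {ω | X ω ∉ S ∧ Y ω ∉ S ∧ f (X ω) = f' (Y ω)} := by
  obtain ⟨g, hg, hg'⟩ := hf
  obtain ⟨g', hg1, hg1'⟩ := hf'
  have : {ω | X ω ∉ S ∧ Y ω ∉ S ∧ f (X ω) = f' (Y ω)} =
      (X ⁻¹' Sᶜ) ∩ (Y ⁻¹' Sᶜ) ∩ {ω | g (X ω) = g' (Y ω)} := by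
    ext ω
    constructor
    · rintro ⟨h1, h2, h3⟩
      refine ⟨⟨h1, h2⟩, ?_⟩
      show g (X ω) = g' (Y ω)
      rw [hg' _ h1, hg1' _ h2, h3]
    · rintro ⟨⟨h1, h2⟩, h3⟩
      refine ⟨h1, h2, hj ?_⟩
      rw [← hg' _ h1, ← hg1' _ h2]
      exact h3
  rw [this]
  exact ((hX hS.compl).inter (hY hS.compl)).inter
    (measurableSet_eq_fun (hg.comp hX) (hg1.comp hY))

theorem meas_eq_id (hj : Function.Injective j) (hjm : Measurable j) (hS : MeasurableSet S)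
    {X Y : Ω → G} (hX : Measurable X) (hY : Measurable Y) {f : G → G} (hf : Lift j S f) :
    MeasurableSet {ω | Y ω ∉ S ∧ X ω = f (Y ω)} := by
  obtain ⟨g, hg, hg'⟩ := hf
  have : {ω | Y ω ∉ S ∧ X ω = f (Y ω)} = (Y ⁻¹' Sᶜ) ∩ {ω | j (X ω) = g (Y ω)} := by
    ext ω
    constructor
    · rintro ⟨h2, h3⟩
      refine ⟨h2, ?_⟩
      show j (X ω) = g (Y ω)
      rw [hg' _ h2, h3]
    · rintro ⟨h2, h3⟩
      refine ⟨h2, hj ?_⟩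
      rw [← hg' _ h2]
      exact h3
  rw [this]
  exact (hY hS.compl).inter (measurableSet_eq_fun (hjm.comp hX) (hg.comp hY))

theorem meas_eq_const (hj : Function.Injective j) (hjm : Measurable j)
    {X : Ω → G} (hX : Measurable X) (v : G) :
    MeasurableSet {ω | X ω = v} := by
  have : {ω | X ω = v} = {ω | j (X ω) = j v} := by
    ext ω; exact ⟨fun h => congrArg j h, fun h => hj h⟩
  rw [this]
  exact measurableSet_eq_fun (hjm.comp hX) measurable_const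

theorem meas_eq_eq (hj : Function.Injective j) (hjm : Measurable j)
    {X Y : Ω → G} (hX : Measurable X) (hY : Measurable Y) :
    MeasurableSet {ω | X ω = Y ω} := by
  have : {ω | X ω = Y ω} = {ω | j (X ω) = j (Y ω)} := by
    ext ω; exact ⟨fun h => congrArg j h, fun h => hj h⟩
  rw [this]
  exact measurableSet_eq_fun (hjm.comp hX) (hjm.comp hY)

variable {ρ a : ℕ → G → G} {s : J → G} {p : G → G} {F : Set (G → G)}

theorem meas_derN (hj : Function.Injective j) (hS : MeasurableSet S)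
    (hU : ∀ i n, ∀ f ∈ F, U ρ a s p i n ∘ f ∈ F) (hF : ∀ f ∈ F, Lift j S f) :
    ∀ (m : ℕ) (f g h : G → G), f ∈ F → g ∈ F → h ∈ F → ∀ (X Y Z : Ω → G), Measurable X →
      Measurable Y → Measurable Z →
      MeasurableSet {ω | X ω ∉ S ∧ Y ω ∉ S ∧ Z ω ∉ S ∧
        DerN ρ a m (f (X ω)) (g (Y ω)) (h (Z ω))} := by
  intro m
  induction m with
  | zero =>
    intro f g h hf hg hh X Y Z hX hY hZ
    have : {ω | X ω ∉ S ∧ Y ω ∉ S ∧ Z ω ∉ S ∧ DerN ρ a 0 (f (X ω)) (g (Y ω)) (h (Z ω))} =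
        ⋃ n : ℕ, ({ω | Y ω ∉ S ∧ X ω ∉ S ∧ g (Y ω) = (U ρ a s p 0 n ∘ f) (X ω)} ∩
          {ω | Z ω ∉ S ∧ X ω ∉ S ∧ h (Z ω) = (U ρ a s p 1 n ∘ f) (X ω)}) := by
      ext ω
      simp only [mem_iUnion]
      constructor
      · rintro ⟨h1, h2, h3, n, h4, h5⟩
        exact ⟨n, ⟨h2, h1, h4⟩, ⟨h3, h1, h5⟩⟩
      · rintro ⟨n, ⟨h2, h1, h4⟩, ⟨h3, _, h5⟩⟩
        exact ⟨h1, h2, h3, n, h4, h5⟩
    rw [this]
    exact MeasurableSet.iUnion fun n =>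
      (meas_eq hj hS hY hX (hF _ hg) (hF _ (hU _ _ _ hf))).inter
        (meas_eq hj hS hZ hX (hF _ hh) (hF _ (hU _ _ _ hf)))
  | succ m ih =>
    intro f g h hf hg hh X Y Z hX hY hZ
    have : {ω | X ω ∉ S ∧ Y ω ∉ S ∧ Z ω ∉ S ∧ DerN ρ a (m + 1) (f (X ω)) (g (Y ω)) (h (Z ω))} =
        {ω | Y ω ∉ S ∧ Z ω ∉ S ∧ X ω ∉ S ∧ DerN ρ a m (g (Y ω)) (h (Z ω)) (f (X ω))} ∪
        ⋃ k : ℕ, ({ω | Y ω ∉ S ∧ Z ω ∉ S ∧
            (U ρ a s p 3 k ∘ g) (Y ω) = (U ρ a s p 5 k ∘ h) (Z ω)} ∩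
          {ω | X ω ∉ S ∧ Y ω ∉ S ∧ Z ω ∉ S ∧ DerN ρ a m (f (X ω))
            ((U ρ a s p 2 k ∘ g) (Y ω)) ((U ρ a s p 4 k ∘ h) (Z ω))}) := by
      ext ω
      simp only [mem_union, mem_iUnion]
      constructor
      · rintro ⟨h1, h2, h3, h4 | ⟨k, h4, h5⟩⟩
        · exact Or.inl ⟨h2, h3, h1, h4⟩
        · exact Or.inr ⟨k, ⟨h2, h3, h4⟩, ⟨h1, h2, h3, h5⟩⟩
      · rintro (⟨h2, h3, h1, h4⟩ | ⟨k, ⟨_, _, h4⟩, ⟨h1, h2, h3, h5⟩⟩)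
        · exact ⟨h1, h2, h3, Or.inl h4⟩
        · exact ⟨h1, h2, h3, Or.inr ⟨k, h4, h5⟩⟩
    rw [this]
    refine (ih g h f hg hh hf Y Z X hY hZ hX).union (MeasurableSet.iUnion fun k => ?_)
    exact (meas_eq hj hS hY hZ (hF _ (hU _ _ _ hg)) (hF _ (hU _ _ _ hh))).inter
      (ih f _ _ hf (hU 2 k _ hg) (hU 4 k _ hh) X Y Z hX hY hZ)

theorem meas_QN (hj : Function.Injective j) (hjm : Measurable j) (hS : MeasurableSet S)
    (hU : ∀ i n, ∀ f ∈ F, U ρ a s p i n ∘ f ∈ F) (hF : ∀ f ∈ F, Lift j S f) :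
    ∀ (m : ℕ) (g h : G → G), g ∈ F → h ∈ F → ∀ (X Y Z : Ω → G), Measurable X →
      Measurable Y → Measurable Z →
      MeasurableSet {ω | Y ω ∉ S ∧ Z ω ∉ S ∧ QN s m (X ω) (g (Y ω)) (h (Z ω))} := by
  intro m
  induction m with
  | zero =>
    intro g h hg hh X Y Z hX hY hZ
    have : {ω | Y ω ∉ S ∧ Z ω ∉ S ∧ QN s 0 (X ω) (g (Y ω)) (h (Z ω))} =
        ({ω | Y ω ∉ S ∧ X ω = (U ρ a s p 7 0 ∘ g) (Y ω)} ∩
          {ω | Z ω ∉ S ∧ Y ω ∉ S ∧ h (Z ω) = (U ρ a s p 8 0 ∘ g) (Y ω)}) ∪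
        ({ω | Z ω ∉ S ∧ X ω = (U ρ a s p 7 0 ∘ h) (Z ω)} ∩
          {ω | Y ω ∉ S ∧ Z ω ∉ S ∧ g (Y ω) = (U ρ a s p 9 0 ∘ h) (Z ω)}) := by
      ext ω
      constructor
      · rintro ⟨h1, h2, ⟨h3, h4⟩ | ⟨h3, h4⟩⟩
        · exact Or.inl ⟨⟨h1, h3⟩, ⟨h2, h1, h4⟩⟩
        · exact Or.inr ⟨⟨h2, h3⟩, ⟨h1, h2, h4⟩⟩
      · rintro (⟨⟨h1, h3⟩, ⟨h2, _, h4⟩⟩ | ⟨⟨h2, h3⟩, ⟨h1, _, h4⟩⟩)
        · exact ⟨h1, h2, Or.inl ⟨h3, h4⟩⟩
        · exact ⟨h1, h2, Or.inr ⟨h3, h4⟩⟩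
    rw [this]
    exact ((meas_eq_id hj hjm hS hX hY (hF _ (hU _ _ _ hg))).inter
        (meas_eq hj hS hZ hY (hF _ hh) (hF _ (hU _ _ _ hg)))).union
      ((meas_eq_id hj hjm hS hX hZ (hF _ (hU _ _ _ hh))).inter
        (meas_eq hj hS hY hZ (hF _ hg) (hF _ (hU _ _ _ hh))))
  | succ m ih =>
    intro g h hg hh X Y Z hX hY hZ
    have : {ω | Y ω ∉ S ∧ Z ω ∉ S ∧ QN s (m + 1) (X ω) (g (Y ω)) (h (Z ω))} =
        {ω | Y ω ∉ S ∧ Z ω ∉ S ∧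
            (U ρ a s p 11 0 ∘ g) (Y ω) = (U ρ a s p 13 0 ∘ h) (Z ω)} ∩
          {ω | Y ω ∉ S ∧ Z ω ∉ S ∧ QN s m (X ω)
            ((U ρ a s p 10 0 ∘ g) (Y ω)) ((U ρ a s p 12 0 ∘ h) (Z ω))} := by
      ext ω
      constructor
      · rintro ⟨h1, h2, h3, h4⟩
        exact ⟨⟨h1, h2, h3⟩, ⟨h1, h2, h4⟩⟩
      · rintro ⟨⟨h1, h2, h3⟩, ⟨_, _, h4⟩⟩
        exact ⟨h1, h2, h3, h4⟩
    rw [this]
    exact (meas_eq hj hS hY hZ (hF _ (hU _ _ _ hg)) (hF _ (hU _ _ _ hh))).inter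
      (ih _ _ (hU 10 0 _ hg) (hU 12 0 _ hh) X Y Z hX hY hZ)

open Classical in
/-- The square root inside the sequence. -/
noncomputable def sq (s : J → G) (v : G) : G :=
  if h : ∃ α, s α * s α = v then s h.choose else 1

theorem sq_spec (hinj : Function.Injective fun α => s α * s α) (α : J) :
    sq s (s α * s α) = s α := by
  unfold sq
  have h : ∃ β, s β * s β = s α * s α := ⟨α, rfl⟩
  rw [dif_pos h]
  exact congrArg s (hinj h.choose_spec)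

theorem sq_mem (hs : Indep s) {v : G} (h : sq s v ∈ range s) : sq s v * sq s v = v := by
  unfold sq at h ⊢
  split_ifs at h ⊢ with h1
  · exact h1.choose_spec
  · obtain ⟨α, hα⟩ := h
    exact absurd hα (hs.ne_one α)

theorem meas_graph' (hj : Function.Injective j) (hjm : Measurable j)
    (hS : MeasurableSet (range s)) (hs : Indep s) (hsq : ∀ α β, s α * s α ≠ s β)
    (hP7 : MeasurableSet (({ω : G × G × G | ω.1 ∈ range s} ∩ {ω | ω.2.1 ∈ range s} ∩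
      {ω | ω.2.2 ∉ range s}) ∩ {ω | ω.1 = ω.2.1 ∧ ω.1 * ω.1 = ω.2.2}))
    (hder : ∀ x y z : G, x * y * z = 1 → Der ρ a x y z)
    (hU : ∀ i n, ∀ f ∈ F, U ρ a s (sq s) i n ∘ f ∈ F) (hid : id ∈ F)
    (hF : ∀ f ∈ F, Lift j (range s) f) :
    MeasurableSet {ω : G × G × G | ω.1 * ω.2.1 = ω.2.2} := by
  have hX : Measurable fun ω : G × G × G => ω.1 := measurable_fst
  have hY : Measurable fun ω : G × G × G => ω.2.1 := measurable_fst.comp measurable_snd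
  have hZ : Measurable fun ω : G × G × G => ω.2.2 := measurable_snd.comp measurable_snd
  set S : Set G := range s with hSdef
  -- the inverse
  have hinv : (fun x : G => x⁻¹) ∈ F := hU 6 0 id hid
  have e0 : ∀ x y z : G, x * y = z ↔ x * y * z⁻¹ = 1 := by
    intro x y z; rw [mul_inv_eq_one]
  have e1 : ∀ x y z : G, x * y = z ↔ y * z⁻¹ * x = 1 := by
    intro x y z
    rw [e0]
    constructor
    · intro h
      calc y * z⁻¹ * x = x⁻¹ * (x * y * z⁻¹) * x := by group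
        _ = 1 := by rw [h]; group
    · intro h
      calc x * y * z⁻¹ = x * (y * z⁻¹ * x) * x⁻¹ := by group
        _ = 1 := by rw [h]; group
  have e2 : ∀ x y z : G, x * y = z ↔ z * y⁻¹ * x⁻¹ = 1 := by
    intro x y z
    rw [e0]
    constructor
    · intro h
      calc z * y⁻¹ * x⁻¹ = (x * y * z⁻¹)⁻¹ := by group
        _ = 1 := by rw [h]; group
    · intro h
      calc x * y * z⁻¹ = (z * y⁻¹ * x⁻¹)⁻¹ := by group
        _ = 1 := by rw [h]; group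
  have q1 : ∀ {x : G}, x ∈ S → ∀ b c : G, x * b * c = 1 ↔ ∃ m, QN s m x b c := by
    rintro _ ⟨β, rfl⟩ b c
    exact ⟨fun h => hs.complete β ⊤ b c le_top le_top h, fun ⟨m, hm⟩ => QN_sound s m hm⟩
  -- the pieces
  let P0 : Set (G × G × G) := ⋃ m : ℕ, {ω | ω.1 ∉ S ∧ ω.2.1 ∉ S ∧ ω.2.2 ∉ S ∧
    DerN ρ a m (id ω.1) (id ω.2.1) ((fun x : G => x⁻¹) ω.2.2)}
  let P1 : Set (G × G × G) := {ω | ω.1 ∈ S} ∩ ⋃ m : ℕ, {ω | ω.2.1 ∉ S ∧ ω.2.2 ∉ S ∧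
    QN s m ω.1 (id ω.2.1) ((fun x : G => x⁻¹) ω.2.2)}
  let P2 : Set (G × G × G) := {ω | ω.2.1 ∈ S} ∩ ⋃ m : ℕ, {ω | ω.2.2 ∉ S ∧ ω.1 ∉ S ∧
    QN s m ω.2.1 ((fun x : G => x⁻¹) ω.2.2) (id ω.1)}
  let P3 : Set (G × G × G) := {ω | ω.2.2 ∈ S} ∩ ⋃ m : ℕ, {ω | ω.2.1 ∉ S ∧ ω.1 ∉ S ∧
    QN s m ω.2.2 ((fun x : G => x⁻¹) ω.2.1) ((fun x : G => x⁻¹) ω.1)}
  let P4 : Set (G × G × G) := ({ω | ω.1 ∈ S} ∩ {ω | ω.2.1 ∈ S}) ∩
    (({ω | ω.2.2 ∉ S ∧ ω.1 = (U ρ a s (sq s) 7 0 ∘ id) ω.2.2} ∩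
      {ω | ω.2.2 ∉ S ∧ ω.2.1 = (U ρ a s (sq s) 14 0 ∘ id) ω.2.2}) ∪
     ({ω | ω.2.2 ∉ S ∧ ω.2.1 = (U ρ a s (sq s) 7 0 ∘ id) ω.2.2} ∩
      {ω | ω.2.2 ∉ S ∧ ω.1 = (U ρ a s (sq s) 15 0 ∘ id) ω.2.2}))
  let P5 : Set (G × G × G) := ({ω | ω.1 ∈ S} ∩ {ω | ω.2.2 ∈ S}) ∩
    (({ω | ω.2.1 ∉ S ∧ ω.1 = (U ρ a s (sq s) 7 0 ∘ id) ω.2.1} ∩
      {ω | ω.2.1 ∉ S ∧ ω.2.2 = (U ρ a s (sq s) 16 0 ∘ id) ω.2.1}) ∪
     (({ω | ω.2.1 ∉ S ∧ ω.2.2 = (U ρ a s (sq s) 7 0 ∘ id) ω.2.1} ∩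
      {ω | ω.2.1 ∉ S ∧ ω.1 = (U ρ a s (sq s) 17 0 ∘ id) ω.2.1}) ∪
      ({ω | ω.1 = ω.2.2} ∩ {ω | ω.2.1 = 1})))
  let P6 : Set (G × G × G) := ({ω | ω.2.1 ∈ S} ∩ {ω | ω.2.2 ∈ S}) ∩
    (({ω | ω.1 ∉ S ∧ ω.2.1 = (U ρ a s (sq s) 7 0 ∘ id) ω.1} ∩
      {ω | ω.1 ∉ S ∧ ω.2.2 = (U ρ a s (sq s) 18 0 ∘ id) ω.1}) ∪
     (({ω | ω.1 ∉ S ∧ ω.2.2 = (U ρ a s (sq s) 7 0 ∘ id) ω.1} ∩
      {ω | ω.1 ∉ S ∧ ω.2.1 = (U ρ a s (sq s) 19 0 ∘ id) ω.1}) ∪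
      ({ω | ω.2.1 = ω.2.2} ∩ {ω | ω.1 = 1})))
  let P7 : Set (G × G × G) := ({ω | ω.1 ∈ S} ∩ {ω | ω.2.1 ∈ S} ∩ {ω | ω.2.2 ∉ S}) ∩
    {ω | ω.1 = ω.2.1 ∧ ω.1 * ω.1 = ω.2.2}
  have mX : MeasurableSet {ω : G × G × G | ω.1 ∈ S} := hX hS
  have mY : MeasurableSet {ω : G × G × G | ω.2.1 ∈ S} := hY hS
  have mZ : MeasurableSet {ω : G × G × G | ω.2.2 ∈ S} := hZ hS
  have l7 : Lift j S (U ρ a s (sq s) 7 0 ∘ id) := hF _ (hU _ _ _ hid)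
  have m0 : MeasurableSet P0 := MeasurableSet.iUnion fun m =>
    meas_derN hj hS hU hF m id id _ hid hid hinv _ _ _ hX hY hZ
  have m1 : MeasurableSet P1 := mX.inter (MeasurableSet.iUnion fun m =>
    meas_QN hj hjm hS hU hF m id _ hid hinv _ _ _ hX hY hZ)
  have m2 : MeasurableSet P2 := mY.inter (MeasurableSet.iUnion fun m =>
    meas_QN hj hjm hS hU hF m _ id hinv hid _ _ _ hY hZ hX)
  have m3 : MeasurableSet P3 := mZ.inter (MeasurableSet.iUnion fun m =>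
    meas_QN hj hjm hS hU hF m _ _ hinv hinv _ _ _ hZ hY hX)
  have m4 : MeasurableSet P4 := (mX.inter mY).inter
    (((meas_eq_id hj hjm hS hX hZ l7).inter
      (meas_eq_id hj hjm hS hY hZ (hF _ (hU _ _ _ hid)))).union
     ((meas_eq_id hj hjm hS hY hZ l7).inter
      (meas_eq_id hj hjm hS hX hZ (hF _ (hU _ _ _ hid)))))
  have m5 : MeasurableSet P5 := (mX.inter mZ).inter
    (((meas_eq_id hj hjm hS hX hY l7).inter
      (meas_eq_id hj hjm hS hZ hY (hF _ (hU _ _ _ hid)))).union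
     (((meas_eq_id hj hjm hS hZ hY l7).inter
      (meas_eq_id hj hjm hS hX hY (hF _ (hU _ _ _ hid)))).union
      ((meas_eq_eq hj hjm hX hZ).inter (meas_eq_const hj hjm hY 1))))
  have m6 : MeasurableSet P6 := (mY.inter mZ).inter
    (((meas_eq_id hj hjm hS hY hX l7).inter
      (meas_eq_id hj hjm hS hZ hX (hF _ (hU _ _ _ hid)))).union
     (((meas_eq_id hj hjm hS hZ hX l7).inter
      (meas_eq_id hj hjm hS hY hX (hF _ (hU _ _ _ hid)))).union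
      ((meas_eq_eq hj hjm hY hZ).inter (meas_eq_const hj hjm hX 1))))
  have m7 : MeasurableSet P7 := hP7
  have key : {ω : G × G × G | ω.1 * ω.2.1 = ω.2.2} =
      P0 ∪ P1 ∪ P2 ∪ P3 ∪ P4 ∪ P5 ∪ P6 ∪ P7 := by
    ext ⟨x, y, z⟩
    constructor
    · intro h
      have h : x * y = z := h
      by_cases hx : x ∈ S
      · by_cases hy : y ∈ S
        · by_cases hz : z ∈ S
          · exact absurd h (hs.xyz hsq hx hy hz)
          · rcases (hs.xy hx hy).1 h with h1 | h1 | h1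
            · left; left; left; right
              exact ⟨⟨hx, hy⟩, Or.inl ⟨⟨hz, h1.1⟩, ⟨hz, h1.2⟩⟩⟩
            · left; left; left; right
              exact ⟨⟨hx, hy⟩, Or.inr ⟨⟨hz, h1.1⟩, ⟨hz, h1.2⟩⟩⟩
            · right
              exact ⟨⟨⟨hx, hy⟩, hz⟩, h1⟩
        · by_cases hz : z ∈ S
          · left; left; right
            rcases (hs.xz hx hz).1 h with h1 | h1 | h1
            · exact ⟨⟨hx, hz⟩, Or.inl ⟨⟨hy, h1.1⟩, ⟨hy, h1.2⟩⟩⟩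
            · exact ⟨⟨hx, hz⟩, Or.inr (Or.inl ⟨⟨hy, h1.1⟩, ⟨hy, h1.2⟩⟩)⟩
            · exact ⟨⟨hx, hz⟩, Or.inr (Or.inr ⟨h1.1, h1.2⟩)⟩
          · left; left; left; left; left; left; right
            obtain ⟨m, hm⟩ := (q1 hx y z⁻¹).1 ((e0 x y z).1 h)
            exact ⟨hx, mem_iUnion.2 ⟨m, hy, hz, hm⟩⟩
      · by_cases hy : y ∈ S
        · by_cases hz : z ∈ S
          · left; right
            rcases (hs.yz hy hz).1 h with h1 | h1 | h1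
            · exact ⟨⟨hy, hz⟩, Or.inl ⟨⟨hx, h1.1⟩, ⟨hx, h1.2⟩⟩⟩
            · exact ⟨⟨hy, hz⟩, Or.inr (Or.inl ⟨⟨hx, h1.1⟩, ⟨hx, h1.2⟩⟩)⟩
            · exact ⟨⟨hy, hz⟩, Or.inr (Or.inr ⟨h1.1, h1.2⟩)⟩
          · left; left; left; left; left; right
            obtain ⟨m, hm⟩ := (q1 hy z⁻¹ x).1 ((e1 x y z).1 h)
            exact ⟨hy, mem_iUnion.2 ⟨m, hz, hx, hm⟩⟩
        · by_cases hz : z ∈ S
          · left; left; left; left; right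
            obtain ⟨m, hm⟩ := (q1 hz y⁻¹ x⁻¹).1 ((e2 x y z).1 h)
            exact ⟨hz, mem_iUnion.2 ⟨m, hy, hx, hm⟩⟩
          · left; left; left; left; left; left; left
            obtain ⟨m, hm⟩ := derN_of_der (hder x y z⁻¹ ((e0 x y z).1 h))
            exact mem_iUnion.2 ⟨m, hx, hy, hz, hm⟩
    · intro h
      show x * y = z
      rcases h with ((((((h | h) | h) | h) | h) | h) | h) | h
      · obtain ⟨m, _, _, _, hm⟩ := mem_iUnion.1 h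
        exact (e0 x y z).2 (der_of_derN m hm).sound
      · obtain ⟨hx, h2⟩ := h
        obtain ⟨m, _, _, hm⟩ := mem_iUnion.1 h2
        exact (e0 x y z).2 ((q1 hx _ _).2 ⟨m, hm⟩)
      · obtain ⟨hy, h2⟩ := h
        obtain ⟨m, _, _, hm⟩ := mem_iUnion.1 h2
        exact (e1 x y z).2 ((q1 hy _ _).2 ⟨m, hm⟩)
      · obtain ⟨hz, h2⟩ := h
        obtain ⟨m, _, _, hm⟩ := mem_iUnion.1 h2
        exact (e2 x y z).2 ((q1 hz _ _).2 ⟨m, hm⟩)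
      · obtain ⟨⟨hx, hy⟩, h2 | h2⟩ := h
        · exact (hs.xy hx hy).2 (Or.inl ⟨h2.1.2, h2.2.2⟩)
        · exact (hs.xy hx hy).2 (Or.inr (Or.inl ⟨h2.1.2, h2.2.2⟩))
      · obtain ⟨⟨hx, hz⟩, h2 | h2 | h2⟩ := h
        · exact (hs.xz hx hz).2 (Or.inl ⟨h2.1.2, h2.2.2⟩)
        · exact (hs.xz hx hz).2 (Or.inr (Or.inl ⟨h2.1.2, h2.2.2⟩))
        · exact (hs.xz hx hz).2 (Or.inr (Or.inr ⟨h2.1, h2.2⟩))
      · obtain ⟨⟨hy, hz⟩, h2 | h2 | h2⟩ := h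
        · exact (hs.yz hy hz).2 (Or.inl ⟨h2.1.2, h2.2.2⟩)
        · exact (hs.yz hy hz).2 (Or.inr (Or.inl ⟨h2.1.2, h2.2.2⟩))
        · exact (hs.yz hy hz).2 (Or.inr (Or.inr ⟨h2.1, h2.2⟩))
      · obtain ⟨⟨⟨hx, hy⟩, _⟩, h2⟩ := h
        exact (hs.xy hx hy).2 (Or.inr (Or.inr h2))
  rw [key]
  exact (((((((m0.union m1).union m2).union m3).union m4).union m5).union m6).union m7)

theorem meas_graph (hj : Function.Injective j) (hjm : Measurable j)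
    (hS : MeasurableSet (range s)) (hs : Indep s) (hsq : ∀ α β, s α * s α ≠ s β)
    (hD : (∃ v, ∀ α, s α * s α = v) ∨ Function.Injective fun α => s α * s α)
    (hder : ∀ x y z : G, x * y * z = 1 → Der ρ a x y z)
    (hU : ∀ i n, ∀ f ∈ F, U ρ a s (sq s) i n ∘ f ∈ F) (hid : id ∈ F)
    (hF : ∀ f ∈ F, Lift j (range s) f) :
    MeasurableSet {ω : G × G × G | ω.1 * ω.2.1 = ω.2.2} := by
  refine meas_graph' hj hjm hS hs hsq ?_ hder hU hid hF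
  have hX : Measurable fun ω : G × G × G => ω.1 := measurable_fst
  have hY : Measurable fun ω : G × G × G => ω.2.1 := measurable_fst.comp measurable_snd
  have hZ : Measurable fun ω : G × G × G => ω.2.2 := measurable_snd.comp measurable_snd
  set S : Set G := range s with hSdef
  have mX : MeasurableSet {ω : G × G × G | ω.1 ∈ S} := hX hS
  have mY : MeasurableSet {ω : G × G × G | ω.2.1 ∈ S} := hY hS
  have mZ : MeasurableSet {ω : G × G × G | ω.2.2 ∈ S} := hZ hS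
  let P7 : Set (G × G × G) := ({ω | ω.1 ∈ S} ∩ {ω | ω.2.1 ∈ S} ∩ {ω | ω.2.2 ∉ S}) ∩
    {ω | ω.1 = ω.2.1 ∧ ω.1 * ω.1 = ω.2.2}
  have m7 : MeasurableSet P7 := by
    rcases hD with ⟨v, hv⟩ | hinj
    · have : P7 = ({ω | ω.1 ∈ S} ∩ {ω | ω.2.1 ∈ S} ∩ {ω | ω.2.2 ∈ S}ᶜ) ∩
          ({ω | ω.1 = ω.2.1} ∩ {ω | ω.2.2 = v}) := by
        ext ω
        constructor
        · rintro ⟨⟨⟨h1, h2⟩, h3⟩, h4, h5⟩
          obtain ⟨α, hα⟩ := h1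
          refine ⟨⟨⟨⟨α, hα⟩, h2⟩, h3⟩, h4, ?_⟩
          show ω.2.2 = v
          rw [← h5, ← hα, hv]
        · rintro ⟨⟨⟨h1, h2⟩, h3⟩, h4, h5⟩
          obtain ⟨α, hα⟩ := h1
          refine ⟨⟨⟨⟨α, hα⟩, h2⟩, h3⟩, h4, ?_⟩
          rw [← hα, hv]
          exact h5.symm
      rw [this]
      exact ((mX.inter mY).inter mZ.compl).inter
        ((meas_eq_eq hj hjm hX hY).inter (meas_eq_const hj hjm hZ v))
    · have : P7 = ({ω | ω.1 ∈ S} ∩ {ω | ω.2.1 ∈ S} ∩ {ω | ω.2.2 ∈ S}ᶜ) ∩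
          ({ω | ω.2.2 ∉ S ∧ ω.1 = (U ρ a s (sq s) 20 0 ∘ id) ω.2.2} ∩
           {ω | ω.2.2 ∉ S ∧ ω.2.1 = (U ρ a s (sq s) 20 0 ∘ id) ω.2.2}) := by
        ext ω
        constructor
        · rintro ⟨⟨⟨h1, h2⟩, h3⟩, h4, h5⟩
          obtain ⟨α, hα⟩ := h1
          have h6 : ω.1 = sq s ω.2.2 := by
            rw [← h5, ← hα, sq_spec hinj]
          exact ⟨⟨⟨⟨α, hα⟩, h2⟩, h3⟩, ⟨h3, h6⟩, ⟨h3, by rw [← h4]; exact h6⟩⟩
        · rintro ⟨⟨⟨h1, h2⟩, h3⟩, ⟨_, h4⟩, ⟨_, h5⟩⟩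
          have h4' : ω.1 = sq s ω.2.2 := h4
          have h5' : ω.2.1 = sq s ω.2.2 := h5
          refine ⟨⟨⟨h1, h2⟩, h3⟩, by rw [h4', h5'], ?_⟩
          rw [h4']
          apply sq_mem hs
          rw [← h4']; exact h1
      rw [this]
      exact ((mX.inter mY).inter mZ.compl).inter
        ((meas_eq_id hj hjm hS hX hZ (hF _ (hU _ _ _ hid))).inter
          (meas_eq_id hj hjm hS hY hZ (hF _ (hU _ _ _ hid))))
  exact m7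

end Measurable

end AbsBorel
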