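import Mathlib

/-!
# The probability space of the construction, and the substitution lemmas
-/

open Cardinal Set MeasureTheory Function
open scoped ENNReal symmDiff

namespace AbsBorel.Key

/-- The alphabet of the labels of level `k`. -/
abbrev Lab (k : ℕ) : Type := (Fin k → Bool) × (Fin k → Bool)

/-- The space of the labels. -/
abbrev ZZ : Type := (p : ℕ × ℕ) → Lab p.1

/-- The probability space. -/
abbrev Om : Type := (ℕ → ℝ) × ZZ × ℝ

/-- Lebesgue measure on the unit interval. -/
noncomputable def nu : Measure ℝ := (volume : Measure ℝ).restrict (Icc 0 1)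

instance : IsProbabilityMeasure nu := by
  constructor
  simp [nu]

/-- The uniform measure on the labels. -/
noncomputable def rho (k : ℕ) : Measure (Lab k) := (PMF.uniformOfFintype (Lab k)).toMeasure

instance (k : ℕ) : IsProbabilityMeasure (rho k) := by
  unfold rho
  infer_instance

/-- The number of labels. -/
def nlab (k : ℕ) : ℕ := Fintype.card (Lab k)

theorem nlab_pos (k : ℕ) : 0 < nlab k := Fintype.card_pos

theorem rho_singleton (k : ℕ) (c : Lab k) : rho k {c} = ((nlab k : ℕ) : ℝ≥0∞)⁻¹ := by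
  unfold rho nlab
  rw [PMF.toMeasure_apply_singleton _ _ (measurableSet_singleton c), PMF.uniformOfFintype_apply]

/-- The measure on the labels. -/
noncomputable def muZ : Measure ZZ := Measure.infinitePi (fun p : ℕ × ℕ => rho p.1)

/-- The measure on the sequences of reals. -/
noncomputable def muY : Measure (ℕ → ℝ) := Measure.infinitePi (fun _ : ℕ => nu)

instance : IsProbabilityMeasure muZ := by unfold muZ; infer_instance
instance : IsProbabilityMeasure muY := by unfold muY; infer_instance

/-- The measure on the whole space. -/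
noncomputable def mm : Measure Om := muY.prod (muZ.prod nu)

instance : IsProbabilityMeasure mm := by unfold mm; infer_instance

section Update

variable {ι : Type*} [DecidableEq ι] {X : ι → Type*} [∀ i, MeasurableSpace (X i)]
  (μ : ∀ i, Measure (X i)) [∀ i, IsProbabilityMeasure (μ i)]

theorem map_update (i : ι) :
    ((μ i).prod (Measure.infinitePi μ)).map (fun p : X i × (∀ j, X j) => update p.2 i p.1) =
      Measure.infinitePi μ := by
  have hm : Measurable (fun p : X i × (∀ j, X j) => update p.2 i p.1) :=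
    measurable_update'.comp (measurable_snd.prodMk measurable_fst)
  apply Measure.eq_infinitePi
  intro s t ht
  rw [Measure.map_apply hm (MeasurableSet.pi s.countable_toSet fun j _ => ht j)]
  by_cases hi : i ∈ s
  · have h1 : (fun p : X i × (∀ j, X j) => update p.2 i p.1) ⁻¹' (Set.pi s t) =
        t i ×ˢ (Set.pi (s.erase i) t) := by
      ext p
      simp only [mem_preimage, Set.mem_pi, mem_prod, Finset.mem_coe, Finset.mem_erase]
      constructor
      · intro h
        refine ⟨by simpa using h i hi, fun j hj => ?_⟩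
        have := h j hj.2
        rwa [update_of_ne hj.1] at this
      · rintro ⟨h1, h2⟩ j hj
        by_cases hji : j = i
        · subst hji; simpa using h1
        · rw [update_of_ne hji]; exact h2 j ⟨hji, hj⟩
    rw [h1, Measure.prod_prod, Measure.infinitePi_pi _ (fun j _ => ht j),
      Finset.mul_prod_erase s (fun j => μ j (t j)) hi]
  · have h1 : (fun p : X i × (∀ j, X j) => update p.2 i p.1) ⁻¹' (Set.pi s t) =
        Set.univ ×ˢ (Set.pi s t) := by
      ext p
      simp only [mem_preimage, Set.mem_pi, mem_prod, Finset.mem_coe, mem_univ, true_and]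
      refine forall₂_congr fun j hj => ?_
      rw [update_of_ne]
      rintro rfl
      exact hi hj
    rw [h1, Measure.prod_prod, Measure.infinitePi_pi _ (fun j _ => ht j), measure_univ, one_mul]

theorem lintegral_update (i : ι) {f : (∀ j, X j) → ℝ≥0∞} (hf : Measurable f) :
    ∫⁻ x, f x ∂(Measure.infinitePi μ) =
      ∫⁻ a, ∫⁻ x, f (update x i a) ∂(Measure.infinitePi μ) ∂(μ i) := by
  have hm : Measurable (fun p : X i × (∀ j, X j) => update p.2 i p.1) :=
    measurable_update'.comp (measurable_snd.prodMk measurable_fst)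
  conv_lhs => rw [← map_update μ i]
  rw [lintegral_map hf hm,
    lintegral_prod (fun p : X i × (∀ j, X j) => f (update p.2 i p.1)) (hf.comp hm).aemeasurable]

theorem measure_update (i : ι) {E : Set (∀ j, X j)} (hE : MeasurableSet E) :
    Measure.infinitePi μ E = ∫⁻ a, Measure.infinitePi μ {x | update x i a ∈ E} ∂(μ i) := by
  have h := lintegral_update μ i (f := E.indicator 1) (measurable_one.indicator hE)
  rw [lintegral_indicator_one hE] at h
  rw [h]
  refine lintegral_congr fun a => ?_
  have hm : MeasurableSet {x | update x i a ∈ E} := by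
    have : Measurable fun x : (∀ j, X j) => update x i a :=
      measurable_update_left
    exact this hE
  rw [← lintegral_indicator_one hm]
  rfl

theorem measure_update_le (i : ι) {E : Set (∀ j, X j)} (hE : MeasurableSet E) (c : X i)
    (hc : MeasurableSet ({c} : Set (X i))) :
    μ i {c} * Measure.infinitePi μ {x | update x i c ∈ E} ≤ Measure.infinitePi μ E := by
  rw [measure_update μ i hE]
  calc μ i {c} * Measure.infinitePi μ {x | update x i c ∈ E}
      = ∫⁻ a, ({c} : Set (X i)).indicator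
          (fun _ => Measure.infinitePi μ {x | update x i c ∈ E}) a ∂(μ i) := by
        rw [lintegral_indicator_const hc, mul_comm]
    _ ≤ _ := by
        refine lintegral_mono fun a => ?_
        by_cases ha : a = c
        · subst ha; simp
        · simp [ha]

end Update

/-! ### The substitutions -/

/-- The first `k` digits of a real number. -/
noncomputable def dig (k : ℕ) (b : ℝ) : Fin k → Bool := fun j => MeasurableSpace.mapNatBool ℝ b j

theorem measurable_dig (k : ℕ) : Measurable (dig k) := by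
  refine measurable_pi_lambda _ fun j => ?_
  exact (measurable_pi_apply (j : ℕ)).comp (MeasurableSpace.measurable_mapNatBool ℝ)

theorem eq_of_dig {a b : ℝ} (h : ∀ n, ∃ k ≥ n, dig k a = dig k b) : a = b := by
  apply MeasurableSpace.injective_mapNatBool ℝ
  funext n
  obtain ⟨k, hk, h⟩ := h (n + 1)
  exact congrFun h ⟨n, hk⟩

/-- The substitution of a label. -/
noncomputable def subL (p : ℕ × ℕ) (a : Fin p.1 → Bool) (x : Om) : Om :=
  (x.1, update x.2.1 p (a, dig p.1 x.2.2), x.2.2)

/-- The substitution of a real. -/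
noncomputable def subY (k : ℕ) (y : ℝ) (x : Om) : Om := (update x.1 k y, x.2.1, x.2.2)

theorem measurable_subL (p : ℕ × ℕ) (a : Fin p.1 → Bool) : Measurable (subL p a) := by
  refine measurable_fst.prodMk (Measurable.prodMk ?_ (measurable_snd.comp measurable_snd))
  have h : Measurable fun x : Om => ((x.2.1, (a, dig p.1 x.2.2)) : ZZ × Lab p.1) :=
    (measurable_fst.comp measurable_snd).prodMk (measurable_const.prodMk
      ((measurable_dig p.1).comp (measurable_snd.comp measurable_snd)))
  exact measurable_update'.comp h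

theorem measurable_subY (k : ℕ) (y : ℝ) : Measurable (subY k y) :=
  (measurable_update_left.comp measurable_fst).prodMk measurable_snd

theorem muZ_update_le (p : ℕ × ℕ) {E : Set ZZ} (hE : MeasurableSet E) (c : Lab p.1) :
    muZ {z | update z p c ∈ E} ≤ (nlab p.1 : ℝ≥0∞) * muZ E := by
  have h := measure_update_le (fun p : ℕ × ℕ => rho p.1) p hE c (measurableSet_singleton c)
  rw [rho_singleton] at h
  have hn : ((nlab p.1 : ℕ) : ℝ≥0∞) ≠ 0 := by exact_mod_cast (nlab_pos p.1).ne'
  have hn' : ((nlab p.1 : ℕ) : ℝ≥0∞) ≠ ⊤ := ENNReal.natCast_ne_top _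
  calc muZ {z | update z p c ∈ E}
      = (nlab p.1 : ℝ≥0∞) * ((nlab p.1 : ℝ≥0∞)⁻¹ * muZ {z | update z p c ∈ E}) := by
        rw [← mul_assoc, ENNReal.mul_inv_cancel hn hn', one_mul]
    _ ≤ _ := by gcongr; exact h

theorem mm_subL_le (p : ℕ × ℕ) (a : Fin p.1 → Bool) {E : Set Om} (hE : MeasurableSet E) :
    mm (subL p a ⁻¹' E) ≤ (nlab p.1 : ℝ≥0∞) * mm E := by
  unfold mm
  rw [Measure.prod_apply (measurable_subL p a hE), Measure.prod_apply hE,
    ← lintegral_const_mul _ (measurable_measure_prodMk_left hE)]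
  refine lintegral_mono fun y => ?_
  have hE' : MeasurableSet (Prod.mk y ⁻¹' E) := measurable_prodMk_left hE
  have hS : MeasurableSet (Prod.mk y ⁻¹' (subL p a ⁻¹' E)) :=
    measurable_prodMk_left (measurable_subL p a hE)
  rw [Measure.prod_apply_symm hS, Measure.prod_apply_symm hE',
    ← lintegral_const_mul _ (measurable_measure_prodMk_right hE')]
  refine lintegral_mono fun b => ?_
  exact muZ_update_le p (E := (fun z => (z, b)) ⁻¹' (Prod.mk y ⁻¹' E))
    (measurable_prodMk_right hE') (a, dig p.1 b)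

theorem mm_subY (k : ℕ) {E : Set Om} (hE : MeasurableSet E) :
    mm E = ∫⁻ y, mm (subY k y ⁻¹' E) ∂nu := by
  have h1 : ∀ y, mm (subY k y ⁻¹' E) =
      ∫⁻ x, (muZ.prod nu) (Prod.mk (update x k y) ⁻¹' E) ∂muY := by
    intro y
    unfold mm
    rw [Measure.prod_apply (measurable_subY k y hE)]
    rfl
  simp_rw [h1]
  unfold mm
  rw [Measure.prod_apply hE]
  exact lintegral_update (fun _ : ℕ => nu) k (measurable_measure_prodMk_left hE)

theorem measurable_mm_subY (k : ℕ) {E : Set Om} (hE : MeasurableSet E) :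
    Measurable fun y => mm (subY k y ⁻¹' E) := by
  have h : Measurable fun q : ℝ × Om => subY k q.1 q.2 := by
    unfold subY
    refine Measurable.prodMk ?_ (measurable_snd.comp measurable_snd)
    exact measurable_update'.comp ((measurable_fst.comp measurable_snd).prodMk measurable_fst)
  exact measurable_measure_prodMk_left (h hE)

/-! ### Approximation -/

/-- Invariance under changes of the labels at the locations `≥ n`. -/
def Inv (n : ℕ) (E : Set Om) : Prop :=
  ∀ x : Om, ∀ p : ℕ × ℕ, n ≤ p.2 → ∀ c : Lab p.1, ((x.1, update x.2.1 p c, x.2.2) : Om) ∈ E ↔ x ∈ E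

theorem Inv.mono {n m : ℕ} {E : Set Om} (h : Inv n E) (hnm : n ≤ m) : Inv m E :=
  fun x p hp c => h x p (hnm.trans hp) c

/-- The sets depending on finitely many locations. -/
def ringC : Set (Set Om) := {E | MeasurableSet E ∧ ∃ n, Inv n E}

theorem ringC_isSetRing : IsSetRing ringC where
  empty_mem := ⟨MeasurableSet.empty, 0, fun _ _ _ _ => Iff.rfl⟩
  union_mem := by
    rintro s t ⟨hs, n, hn⟩ ⟨ht, m, hm⟩
    exact ⟨hs.union ht, max n m, fun x p hp c => or_congr
      (hn.mono (le_max_left n m) x p hp c) (hm.mono (le_max_right n m) x p hp c)⟩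
  sdiff_mem := by
    rintro s t ⟨hs, n, hn⟩ ⟨ht, m, hm⟩
    exact ⟨hs.diff ht, max n m, fun x p hp c => and_congr
      (hn.mono (le_max_left n m) x p hp c)
      (not_congr (hm.mono (le_max_right n m) x p hp c))⟩

theorem ringC_generate :
    (inferInstance : MeasurableSpace Om) = MeasurableSpace.generateFrom ringC := by
  apply le_antisymm
  · have hY : Measurable[MeasurableSpace.generateFrom ringC] (fun x : Om => x.1) := by
      intro A hA
      exact MeasurableSpace.measurableSet_generateFrom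
        ⟨measurable_fst hA, 0, fun _ _ _ _ => Iff.rfl⟩
    have hB : Measurable[MeasurableSpace.generateFrom ringC] (fun x : Om => x.2.2) := by
      intro A hA
      exact MeasurableSpace.measurableSet_generateFrom
        ⟨(measurable_snd.comp measurable_snd) hA, 0, fun _ _ _ _ => Iff.rfl⟩
    have hZ : Measurable[MeasurableSpace.generateFrom ringC] (fun x : Om => x.2.1) := by
      refine @measurable_pi_lambda _ _ _ (MeasurableSpace.generateFrom ringC) _ _ fun p => ?_
      intro A hA
      refine MeasurableSpace.measurableSet_generateFrom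
        ⟨((measurable_pi_apply p).comp (measurable_fst.comp measurable_snd)) hA, p.2 + 1, ?_⟩
      intro x q hq c
      show update x.2.1 q c p ∈ A ↔ x.2.1 p ∈ A
      rw [update_of_ne]
      rintro rfl
      omega
    refine sup_le hY.comap_le ?_
    have h2 : Measurable[MeasurableSpace.generateFrom ringC] (fun x : Om => x.2) := by
      rw [measurable_iff_comap_le]
      change MeasurableSpace.comap (fun x : Om => x.2)
        (MeasurableSpace.comap Prod.fst inferInstance ⊔
          MeasurableSpace.comap Prod.snd inferInstance) ≤ _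
      rw [MeasurableSpace.comap_sup, MeasurableSpace.comap_comp, MeasurableSpace.comap_comp]
      exact sup_le hZ.comap_le hB.comap_le
    exact h2.comap_le
  · apply MeasurableSpace.generateFrom_le
    intro t ht
    exact ht.1

theorem exists_approx {G : Set Om} (hG : MeasurableSet G) {ε : ℝ≥0∞} (hε : 0 < ε) :
    ∃ n, ∃ G' : Set Om, MeasurableSet G' ∧ Inv n G' ∧ mm (G' ∆ G) < ε := by
  obtain ⟨t, ⟨ht, n, hn⟩, h⟩ := exists_measure_symmDiff_lt_of_generateFrom_isSetRing (μ := mm)
    ringC_isSetRing ⟨{Set.univ}, countable_singleton _, by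
      rintro _ rfl
      exact ⟨MeasurableSet.univ, 0, fun _ _ _ _ => Iff.rfl⟩, by simp⟩ ringC_generate hG hε
  exact ⟨n, t, ht, hn, h⟩

/-! ### The stage lemma -/

theorem stage_aux (k : ℕ) {G G' : Set Om} (hG : MeasurableSet G) (hG' : MeasurableSet G') {n : ℕ}
    (hI : Inv n G') (y : ℝ) {l : ℕ} (hl : n ≤ l) (a : Fin k → Bool) :
    mm (subY k y ⁻¹' G) ≤ mm (subL (k, l) a ⁻¹' (subY k y ⁻¹' G)) +
      ((nlab k : ℝ≥0∞) + 1) * mm (subY k y ⁻¹' (G' ∆ G)) := by
  have hD : MeasurableSet (G' ∆ G) := hG'.symmDiff hG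
  set E := subY k y ⁻¹' G with hE
  set E' := subY k y ⁻¹' G' with hE'
  set D := subY k y ⁻¹' (G' ∆ G) with hDdef
  have hEm : MeasurableSet E := measurable_subY k y hG
  have hDm : MeasurableSet D := measurable_subY k y hD
  have h1 : E ⊆ E' ∪ D := by
    intro x hx
    by_cases h : subY k y x ∈ G'
    · exact Or.inl h
    · exact Or.inr (Or.inr ⟨hx, h⟩)
  have h2 : E' ⊆ subL (k, l) a ⁻¹' E ∪ subL (k, l) a ⁻¹' D := by
    intro x hx
    have h3 : subL (k, l) a x ∈ E' := by
      have := hI (subY k y x) (k, l) hl (a, dig k x.2.2)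
      exact this.2 hx
    by_cases h : subL (k, l) a x ∈ E
    · exact Or.inl h
    · exact Or.inr (Or.inl ⟨h3, h⟩)
  calc mm E ≤ mm E' + mm D := (measure_mono h1).trans (measure_union_le _ _)
    _ ≤ (mm (subL (k, l) a ⁻¹' E) + (nlab k : ℝ≥0∞) * mm D) + mm D := by
        gcongr
        refine (measure_mono h2).trans ((measure_union_le _ _).trans ?_)
        gcongr
        exact mm_subL_le (k, l) a hDm
    _ = _ := by rw [add_mul, one_mul, add_assoc]

theorem stage (k : ℕ) {G : Set Om} (hG : MeasurableSet G) {ε : ℝ≥0∞} (hε : 0 < ε)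
    (hε' : ε ≤ 1 / 4) :
    ∃ h : ℕ, ∀ C : Set ℝ, MeasurableSet C → nu C ≤ ε → ∃ y, y ∉ C ∧ ∀ l, h ≤ l →
      ∀ a : Fin k → Bool, mm G ≤ mm (subL (k, l) a ⁻¹' (subY k y ⁻¹' G)) + 3 * ε := by
  set q : ℝ≥0∞ := (nlab k : ℝ≥0∞) + 1 with hq
  have hq0 : q ≠ 0 := by simp [hq]
  have hqt : q ≠ ⊤ := by simp [hq]
  have hεt : ε ≠ ⊤ := ne_top_of_le_ne_top (by simp) hε'
  obtain ⟨n, G', hG', hI, hGG⟩ := exists_approx hG (ε := ε / q)
    (ENNReal.div_pos hε.ne' hqt)
  refine ⟨n, fun C hC hCε => ?_⟩
  by_contra hcon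
  push Not at hcon
  have hD : MeasurableSet (G' ∆ G) := hG'.symmDiff hG
  have key : ∀ y ∈ Cᶜ, mm (subY k y ⁻¹' G) + 3 * ε ≤ mm G + q * mm (subY k y ⁻¹' (G' ∆ G)) := by
    intro y hy
    obtain ⟨l, hl, a, h⟩ := hcon y hy
    have h1 := stage_aux k hG hG' hI y hl a
    calc mm (subY k y ⁻¹' G) + 3 * ε
        ≤ (mm (subL (k, l) a ⁻¹' (subY k y ⁻¹' G)) + q * mm (subY k y ⁻¹' (G' ∆ G))) + 3 * ε := by
          gcongr
      _ = (mm (subL (k, l) a ⁻¹' (subY k y ⁻¹' G)) + 3 * ε) + q * mm (subY k y ⁻¹' (G' ∆ G)) := by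
          ring
      _ ≤ _ := by gcongr
  have hint : ∫⁻ y in Cᶜ, (mm (subY k y ⁻¹' G) + 3 * ε) ∂nu ≤
      ∫⁻ y in Cᶜ, (mm G + q * mm (subY k y ⁻¹' (G' ∆ G))) ∂nu :=
    setLIntegral_mono' hC.compl key
  rw [lintegral_add_left (measurable_mm_subY k hG), lintegral_add_left measurable_const,
    setLIntegral_const, setLIntegral_const,
    lintegral_const_mul _ (measurable_mm_subY k hD)] at hint
  have hI1 : ∫⁻ y in Cᶜ, mm (subY k y ⁻¹' (G' ∆ G)) ∂nu ≤ ε / q := by
    refine (setLIntegral_le_lintegral _ _).trans ?_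
    rw [← mm_subY k hD]
    exact hGG.le
  have hI2 : q * ∫⁻ y in Cᶜ, mm (subY k y ⁻¹' (G' ∆ G)) ∂nu ≤ ε := by
    calc q * ∫⁻ y in Cᶜ, mm (subY k y ⁻¹' (G' ∆ G)) ∂nu ≤ q * (ε / q) := by gcongr
      _ = ε := ENNReal.mul_div_cancel hq0 hqt
  have hI3 : mm G ≤ ∫⁻ y in Cᶜ, mm (subY k y ⁻¹' G) ∂nu + ε := by
    rw [mm_subY k hG, ← lintegral_add_compl _ hC, add_comm]
    gcongr
    calc ∫⁻ y in C, mm (subY k y ⁻¹' G) ∂nu ≤ ∫⁻ _ in C, 1 ∂nu := by
          gcongr
          exact prob_le_one
      _ = nu C := by simp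
      _ ≤ ε := hCε
  have hC' : nu Cᶜ ≤ 1 := prob_le_one
  have hfin : mm G ≠ ⊤ := measure_ne_top _ _
  have h4 : mm G + 3 * ε * nu Cᶜ ≤ mm G + 2 * ε := by
    calc mm G + 3 * ε * nu Cᶜ ≤ (∫⁻ y in Cᶜ, mm (subY k y ⁻¹' G) ∂nu + ε) + 3 * ε * nu Cᶜ := by
          gcongr
      _ = (∫⁻ y in Cᶜ, mm (subY k y ⁻¹' G) ∂nu + 3 * ε * nu Cᶜ) + ε := by ring
      _ ≤ (mm G * nu Cᶜ + ε) + ε := by
          gcongr ?_ + ε
          exact hint.trans (by gcongr)
      _ ≤ (mm G * 1 + ε) + ε := by gcongr
      _ = mm G + 2 * ε := by ring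
  have h5 : 3 * ε * nu Cᶜ ≤ 2 * ε := (ENNReal.add_le_add_iff_left hfin).1 h4
  have h6 : 3 * nu Cᶜ ≤ 2 := by
    rw [mul_comm 3 ε, mul_assoc, mul_comm 2 ε] at h5
    exact (ENNReal.mul_le_mul_iff_right hε.ne' hεt).1 h5
  have h7 : nu Cᶜ = 1 - nu C := prob_compl_eq_one_sub hC
  have h8 : (3 : ℝ≥0∞) / 4 ≤ nu Cᶜ := by
    rw [h7]
    refine le_trans ?_ (tsub_le_tsub_left (hCε.trans hε') 1)
    apply le_of_eq
    rw [eq_comm]
    apply ENNReal.sub_eq_of_eq_add (by simp)
    rw [← ENNReal.add_div]
    norm_num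
    exact (ENNReal.div_self (by norm_num) (by norm_num)).symm
  have h9 : 3 * ((3 : ℝ≥0∞) / 4) ≤ 2 := le_trans (by gcongr) h6
  rw [← mul_div_assoc, ENNReal.div_le_iff (by norm_num) (by norm_num)] at h9
  norm_num at h9

end AbsBorel.Key
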