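import Pool.Agent.AbsBorel.KeyA

/-!
# The key lemma: points with prescribed labels in a closed set of positive measure
-/

open Cardinal Set MeasureTheory Function Filter
open scoped ENNReal symmDiff Topology

namespace AbsBorel.Key

theorem exists_base : ∃ B : ℕ → Set ℝ, (∀ n, IsOpen (B n)) ∧
    ∀ U : Set ℝ, IsOpen U → ∀ x ∈ U, ∃ n, x ∈ B n ∧ B n ⊆ U := by
  have hne : (TopologicalSpace.countableBasis ℝ).Nonempty := by
    obtain ⟨V, hV, _⟩ := (TopologicalSpace.isBasis_countableBasis ℝ).exists_subset_of_mem_open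
      (mem_univ (0 : ℝ)) isOpen_univ
    exact ⟨V, hV⟩
  obtain ⟨B, hB⟩ := (TopologicalSpace.countable_countableBasis ℝ).exists_eq_range hne
  refine ⟨B, fun n => ?_, fun U hU x hx => ?_⟩
  · apply (TopologicalSpace.isBasis_countableBasis ℝ).isOpen
    rw [hB]
    exact ⟨n, rfl⟩
  · obtain ⟨V, hV, hxV, hVU⟩ :=
      (TopologicalSpace.isBasis_countableBasis ℝ).exists_subset_of_mem_open hx hU
    rw [hB] at hV
    obtain ⟨n, rfl⟩ := hV
    exact ⟨n, hxV, hVU⟩

/-- A countable base of the topology of the real line. -/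
noncomputable def BB : ℕ → Set ℝ := exists_base.choose

theorem isOpen_BB (n : ℕ) : IsOpen (BB n) := exists_base.choose_spec.1 n

theorem BB_spec {U : Set ℝ} (hU : IsOpen U) {x : ℝ} (hx : x ∈ U) : ∃ n, x ∈ BB n ∧ BB n ⊆ U :=
  exists_base.choose_spec.2 U hU x hx

/-- The open set with code `N`. -/
def UU (N : Set ℕ) : Set ℝ := ⋃ n ∈ N, BB n

theorem mem_UU {N : Set ℕ} {y : ℝ} : y ∈ UU N ↔ ∃ n ∈ N, y ∈ BB n := by
  simp [UU]

/-- The location of a real in an open set. -/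
noncomputable def loc (N : Set ℕ) (y : ℝ) : ℕ := sInf {n | n ∈ N ∧ y ∈ BB n}

theorem loc_spec {N : Set ℕ} {y : ℝ} (h : y ∈ UU N) : loc N y ∈ N ∧ y ∈ BB (loc N y) := by
  obtain ⟨n, hn⟩ := mem_UU.1 h
  exact Nat.sInf_mem (s := {n | n ∈ N ∧ y ∈ BB n}) ⟨n, hn⟩

theorem le_loc {N : Set ℕ} {y : ℝ} (h : y ∈ UU N) {m : ℕ} (hm : ∀ n ∈ N, y ∈ BB n → m ≤ n) :
    m ≤ loc N y :=
  hm _ (loc_spec h).1 (loc_spec h).2

theorem stage' (k : ℕ) (G : Set Om) : ∃ h : ℕ, ∃ Yf : Finset ℕ → ℝ, MeasurableSet G → 2 ≤ k →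
    ∀ F : Finset ℕ, nu (⋃ n ∈ F, BB n) ≤ 2⁻¹ ^ k → Yf F ∉ ⋃ n ∈ F, BB n ∧ ∀ l, h ≤ l →
      ∀ a : Fin k → Bool, mm G ≤ mm (subL (k, l) a ⁻¹' (subY k (Yf F) ⁻¹' G)) + 3 * 2⁻¹ ^ k := by
  by_cases hG : MeasurableSet G ∧ 2 ≤ k
  · obtain ⟨h, hh⟩ := stage k hG.1 (ε := 2⁻¹ ^ k) (ENNReal.pow_pos (by simp) k) (by
      calc (2⁻¹ : ℝ≥0∞) ^ k ≤ 2⁻¹ ^ 2 := pow_le_pow_right_of_le_one' (by simp) hG.2
        _ = 1 / 4 := by
          rw [← ENNReal.inv_pow]
          norm_num)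
    have h2 : ∀ F : Finset ℕ, ∃ y : ℝ, nu (⋃ n ∈ F, BB n) ≤ 2⁻¹ ^ k → y ∉ ⋃ n ∈ F, BB n ∧
        ∀ l, h ≤ l → ∀ a : Fin k → Bool,
          mm G ≤ mm (subL (k, l) a ⁻¹' (subY k y ⁻¹' G)) + 3 * 2⁻¹ ^ k := by
      intro F
      by_cases hF : nu (⋃ n ∈ F, BB n) ≤ 2⁻¹ ^ k
      · obtain ⟨y, hy⟩ := hh _ (F.measurableSet_biUnion fun n _ => (isOpen_BB n).measurableSet) hF
        exact ⟨y, fun _ => hy⟩
      · exact ⟨0, fun h => absurd h hF⟩
    choose Yf hYf using h2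
    exact ⟨h, Yf, fun _ _ F hF => hYf F hF⟩
  · exact ⟨0, fun _ => 0, fun h1 h2 => absurd ⟨h1, h2⟩ hG⟩

/-- The threshold of a stage. -/
noncomputable def hh (k : ℕ) (G : Set Om) : ℕ := (stage' k G).choose

/-- The real chosen at a stage. -/
noncomputable def yy (k : ℕ) (G : Set Om) : Finset ℕ → ℝ := (stage' k G).choose_spec.choose

theorem yy_spec {k : ℕ} {G : Set Om} (hG : MeasurableSet G) (hk : 2 ≤ k) {F : Finset ℕ}
    (hF : nu (⋃ n ∈ F, BB n) ≤ 2⁻¹ ^ k) : yy k G F ∉ ⋃ n ∈ F, BB n ∧ ∀ l, hh k G ≤ l →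
      ∀ a : Fin k → Bool,
        mm G ≤ mm (subL (k, l) a ⁻¹' (subY k (yy k G F) ⁻¹' G)) + 3 * 2⁻¹ ^ k :=
  (stage' k G).choose_spec.choose_spec hG hk F hF

/-- The next set. -/
noncomputable def nxt (k : ℕ) (G : Set Om) (F : Finset ℕ) (l : ℕ) (a : Fin k → Bool) : Set Om :=
  subL (k, l) a ⁻¹' (subY k (yy k G F) ⁻¹' G)

/-- The reachable sets. -/
def Reach (K : Set Om) : ℕ → Set (Set Om)
  | 0 => {K}
  | k + 1 => Reach K k ∪ ⋃ q : Finset ℕ × ℕ × (Fin k → Bool),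
      (fun G => nxt k G q.1 q.2.1 q.2.2) '' Reach K k

theorem Reach_countable (K : Set Om) : ∀ k, (Reach K k).Countable
  | 0 => countable_singleton K
  | k + 1 => (Reach_countable K k).union
      (countable_iUnion fun _ => (Reach_countable K k).image _)

/-- The countable set of all reals which can be chosen. -/
def YY (K : Set Om) : Set ℝ := ⋃ k, ⋃ G ∈ Reach K k, range (yy k G)

theorem YY_countable (K : Set Om) : (YY K).Countable :=
  countable_iUnion fun k => (Reach_countable K k).biUnion fun _ _ => countable_range _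

section Run

variable (K : Set Om) (N : ℕ → Set ℕ) (v : ℝ) (k0 : ℕ)

open Classical in
/-- The part of the code below `h`. -/
noncomputable def FF (N : Set ℕ) (h : ℕ) : Finset ℕ := (Finset.range h).filter (· ∈ N)

theorem mem_FF {N : Set ℕ} {h n : ℕ} : n ∈ FF N h ↔ n < h ∧ n ∈ N := by
  classical
  simp [FF]

/-- The sets along a run. -/
noncomputable def GG : ℕ → Set Om
  | 0 => K
  | k + 1 => if k0 ≤ k then
      nxt k (GG k) (FF (N k) (hh k (GG k))) (loc (N k) (yy k (GG k) (FF (N k) (hh k (GG k)))))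
        (dig k v)
    else GG k

/-- The reals along a run. -/
noncomputable def yk (k : ℕ) : ℝ := yy k (GG K N v k0 k) (FF (N k) (hh k (GG K N v k0 k)))

/-- The locations along a run. -/
noncomputable def lk (k : ℕ) : ℕ := loc (N k) (yk K N v k0 k)

theorem GG_succ {k : ℕ} (hk : k0 ≤ k) : GG K N v k0 (k + 1) =
    subL (k, lk K N v k0 k) (dig k v) ⁻¹' (subY k (yk K N v k0 k) ⁻¹' GG K N v k0 k) := by
  show (if k0 ≤ k then _ else _) = _
  rw [if_pos hk]
  rfl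

theorem GG_succ' {k : ℕ} (hk : k < k0) : GG K N v k0 (k + 1) = GG K N v k0 k := by
  show (if k0 ≤ k then _ else _) = _
  rw [if_neg (not_le.2 hk)]

theorem GG_reach : ∀ k, GG K N v k0 k ∈ Reach K k
  | 0 => rfl
  | k + 1 => by
    by_cases hk : k0 ≤ k
    · rw [GG_succ K N v k0 hk]
      right
      rw [mem_iUnion]
      exact ⟨(FF (N k) (hh k (GG K N v k0 k)), lk K N v k0 k, dig k v), _, GG_reach k, rfl⟩
    · rw [GG_succ' K N v k0 (not_le.1 hk)]
      exact Or.inl (GG_reach k)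

theorem yk_mem (k : ℕ) : yk K N v k0 k ∈ YY K := by
  unfold YY
  rw [mem_iUnion]
  refine ⟨k, ?_⟩
  rw [mem_iUnion₂]
  exact ⟨GG K N v k0 k, GG_reach K N v k0 k, _, rfl⟩

variable {K}

theorem GG_meas (hK : MeasurableSet K) : ∀ k, MeasurableSet (GG K N v k0 k)
  | 0 => hK
  | k + 1 => by
    by_cases hk : k0 ≤ k
    · rw [GG_succ K N v k0 hk]
      exact measurable_subL _ _ (measurable_subY _ _ (GG_meas hK k))
    · rw [GG_succ' K N v k0 (not_le.1 hk)]
      exact GG_meas hK k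

theorem GG_step (hK : MeasurableSet K) (hk0 : 2 ≤ k0) (hN : ∀ k, nu (UU (N k)) ≤ 2⁻¹ ^ k)
    (hY : ∀ k, YY K ⊆ UU (N k)) {k : ℕ} (hk : k0 ≤ k) :
    mm (GG K N v k0 k) ≤ mm (GG K N v k0 (k + 1)) + 3 * 2⁻¹ ^ k := by
  rw [GG_succ K N v k0 hk]
  have hF : nu (⋃ n ∈ FF (N k) (hh k (GG K N v k0 k)), BB n) ≤ 2⁻¹ ^ k := by
    refine le_trans (measure_mono ?_) (hN k)
    intro y hy
    rw [mem_iUnion₂] at hy
    obtain ⟨n, hn, hy⟩ := hy
    rw [mem_UU]
    exact ⟨n, (mem_FF.1 hn).2, hy⟩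
  obtain ⟨h1, h2⟩ := yy_spec (GG_meas N v k0 hK k) (hk0.trans hk) hF
  apply h2
  apply le_loc (hY k (yk_mem K N v k0 k))
  intro n hn hyn
  by_contra hlt
  apply h1
  rw [mem_iUnion₂]
  exact ⟨n, mem_FF.2 ⟨not_le.1 hlt, hn⟩, hyn⟩

theorem GG_le {k : ℕ} (hk : k ≤ k0) : GG K N v k0 k = K := by
  induction k with
  | zero => rfl
  | succ k ih => rw [GG_succ' K N v k0 hk, ih (by omega)]

theorem GG_mass (hK : MeasurableSet K) (hk0 : 2 ≤ k0) (hN : ∀ k, nu (UU (N k)) ≤ 2⁻¹ ^ k)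
    (hY : ∀ k, YY K ⊆ UU (N k)) (n : ℕ) :
    mm K ≤ mm (GG K N v k0 n) + 6 * 2⁻¹ ^ k0 := by
  have key : ∀ n, k0 ≤ n → mm K + 6 * 2⁻¹ ^ n ≤ mm (GG K N v k0 n) + 6 * 2⁻¹ ^ k0 := by
    intro n hn
    induction n, hn using Nat.le_induction with
    | base => rw [GG_le N v k0 le_rfl]
    | succ n hn ih =>
      have h1 := GG_step N v k0 hK hk0 hN hY hn
      have hfin : (3 : ℝ≥0∞) * 2⁻¹ ^ n ≠ ⊤ :=
        ENNReal.mul_ne_top (by norm_num) (ENNReal.pow_ne_top (by simp))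
      have e1 : (6 : ℝ≥0∞) * 2⁻¹ ^ (n + 1) = 3 * 2⁻¹ ^ n := by
        rw [pow_succ, mul_comm (2⁻¹ ^ n : ℝ≥0∞) 2⁻¹, ← mul_assoc]
        congr 1
        rw [show (6 : ℝ≥0∞) = 3 * 2 by norm_num, mul_assoc,
          ENNReal.mul_inv_cancel (by norm_num) (by norm_num), mul_one]
      have e2 : (6 : ℝ≥0∞) * 2⁻¹ ^ n = 3 * 2⁻¹ ^ n + 3 * 2⁻¹ ^ n := by
        rw [← add_mul]; norm_num
      rw [e1]
      apply (ENNReal.add_le_add_iff_right hfin).1
      calc mm K + 3 * 2⁻¹ ^ n + 3 * 2⁻¹ ^ n = mm K + 6 * 2⁻¹ ^ n := by rw [e2, add_assoc]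
        _ ≤ mm (GG K N v k0 n) + 6 * 2⁻¹ ^ k0 := ih
        _ ≤ (mm (GG K N v k0 (n + 1)) + 3 * 2⁻¹ ^ n) + 6 * 2⁻¹ ^ k0 := by gcongr
        _ = _ := by ring
  by_cases hn : k0 ≤ n
  · exact le_trans le_self_add (key n hn)
  · rw [GG_le N v k0 (not_le.1 hn).le]
    exact le_self_add

variable (K) in
/-- The composition of the substitutions. -/
noncomputable def Phi (n : ℕ) (x : Om) : Om :=
  (fun k => if k0 ≤ k ∧ k < n then yk K N v k0 k else x.1 k,
    fun p => if k0 ≤ p.1 ∧ p.1 < n ∧ p.2 = lk K N v k0 p.1 then (dig p.1 v, dig p.1 x.2.2)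
      else x.2.1 p, x.2.2)

variable (K) in
/-- The composition of all substitutions. -/
noncomputable def PhiI (x : Om) : Om :=
  (fun k => if k0 ≤ k then yk K N v k0 k else x.1 k,
    fun p => if k0 ≤ p.1 ∧ p.2 = lk K N v k0 p.1 then (dig p.1 v, dig p.1 x.2.2)
      else x.2.1 p, x.2.2)

theorem Phi_succ {n : ℕ} (hn : k0 ≤ n) (x : Om) :
    Phi K N v k0 n (subY n (yk K N v k0 n) (subL (n, lk K N v k0 n) (dig n v) x)) =
      Phi K N v k0 (n + 1) x := by
  unfold Phi subY subL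
  refine Prod.ext ?_ (Prod.ext ?_ rfl)
  · funext k
    simp only
    by_cases hk : k = n
    · subst hk
      simp [hn]
    · rw [update_of_ne hk]
      by_cases h1 : k0 ≤ k ∧ k < n
      · rw [if_pos h1, if_pos ⟨h1.1, by omega⟩]
      · rw [if_neg h1, if_neg (by omega)]
  · funext p
    simp only
    by_cases hp : p = (n, lk K N v k0 n)
    · subst hp
      simp [hn]
    · rw [update_of_ne hp]
      by_cases h1 : k0 ≤ p.1 ∧ p.1 < n ∧ p.2 = lk K N v k0 p.1
      · rw [if_pos h1, if_pos ⟨h1.1, by omega, h1.2.2⟩]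
      · rw [if_neg h1, if_neg]
        rintro ⟨h2, h3, h4⟩
        by_cases h5 : p.1 = n
        · apply hp
          refine Prod.ext h5 ?_
          show p.2 = lk K N v k0 n
          rw [h4, h5]
        · exact h1 ⟨h2, by omega, h4⟩

theorem mem_GG : ∀ (n : ℕ) (x : Om), x ∈ GG K N v k0 n ↔ Phi K N v k0 n x ∈ K
  | 0, x => by
    have : Phi K N v k0 0 x = x := by
      unfold Phi
      simp
    rw [this]
    rfl
  | n + 1, x => by
    by_cases hn : k0 ≤ n
    · rw [GG_succ K N v k0 hn, ← Phi_succ N v k0 hn x, ← mem_GG n]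
      rfl
    · have : Phi K N v k0 (n + 1) x = x := by
        unfold Phi
        refine Prod.ext ?_ (Prod.ext ?_ rfl)
        · funext k
          simp only
          rw [if_neg (by omega)]
        · funext p
          simp only
          rw [if_neg (by omega)]
      rw [this, GG_le N v k0 (by omega)]

theorem Phi_tendsto (x : Om) :
    Tendsto (fun n => Phi K N v k0 n x) atTop (𝓝 (PhiI K N v k0 x)) := by
  refine Tendsto.prodMk_nhds ?_ (Tendsto.prodMk_nhds ?_ tendsto_const_nhds)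
  · rw [tendsto_pi_nhds]
    intro k
    apply tendsto_const_nhds.congr'
    filter_upwards [eventually_gt_atTop k] with n hn
    by_cases h : k0 ≤ k
    · simp [h, hn]
    · simp [h]
  · rw [tendsto_pi_nhds]
    intro p
    apply tendsto_const_nhds.congr'
    filter_upwards [eventually_gt_atTop p.1] with n hn
    by_cases h : k0 ≤ p.1
    · simp [h, hn]
    · simp [h]

theorem measurable_PhiI : Measurable (PhiI K N v k0) := by
  unfold PhiI
  refine Measurable.prodMk ?_ (Measurable.prodMk ?_ (measurable_snd.comp measurable_snd))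
  · refine measurable_pi_lambda _ fun k => ?_
    by_cases h : k0 ≤ k
    · simp only [h, if_true]; exact measurable_const
    · simp only [h, if_false]; exact (measurable_pi_apply k).comp measurable_fst
  · refine measurable_pi_lambda _ fun p => ?_
    by_cases h : k0 ≤ p.1 ∧ p.2 = lk K N v k0 p.1
    · simp only [h, and_self, if_true]
      exact measurable_const.prodMk ((measurable_dig p.1).comp (measurable_snd.comp measurable_snd))
    · simp only [h, if_false]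
      exact (measurable_pi_apply p).comp (measurable_fst.comp measurable_snd)

theorem PhiI_mass (hK : IsClosed K) {c : ℝ≥0∞} (hc : ∀ n, c ≤ mm (GG K N v k0 n)) :
    c ≤ mm (PhiI K N v k0 ⁻¹' K) := by
  set T : ℕ → Set Om := fun n => ⋃ m ≥ n, GG K N v k0 m with hT
  have hTm : ∀ n, MeasurableSet (T n) := fun n =>
    MeasurableSet.biUnion (to_countable _) fun m _ => GG_meas N v k0 hK.measurableSet m
  have hanti : Antitone T := by
    intro n m hnm x hx
    simp only [hT, mem_iUnion] at hx ⊢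
    obtain ⟨i, hi, hx⟩ := hx
    exact ⟨i, hnm.trans hi, hx⟩
  have hlim := tendsto_measure_iInter_atTop (μ := mm) (s := T)
    (fun n => (hTm n).nullMeasurableSet) hanti ⟨0, measure_ne_top _ _⟩
  have h1 : c ≤ mm (⋂ n, T n) := by
    refine ge_of_tendsto' hlim fun n => (hc n).trans (measure_mono ?_)
    intro x hx
    simp only [hT, mem_iUnion]
    exact ⟨n, le_rfl, hx⟩
  refine h1.trans (measure_mono ?_)
  intro x hx
  by_contra hcon
  have h2 : ∀ᶠ n in atTop, Phi K N v k0 n x ∈ Kᶜ :=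
    (Phi_tendsto N v k0 x).eventually_mem (hK.isOpen_compl.mem_nhds hcon)
  obtain ⟨n, hn⟩ := eventually_atTop.1 h2
  have h3 := mem_iInter.1 hx n
  simp only [hT, mem_iUnion] at h3
  obtain ⟨m, hm, h3⟩ := h3
  exact hn m hm ((mem_GG N v k0 m x).1 h3)

end Run

/-- The modification of the labels. -/
noncomputable def zmod (N : ℕ → Set ℕ) (v : ℝ) (k0 : ℕ) (y : ℕ → ℝ) (z : ZZ) (b : ℝ) : ZZ :=
  fun p => if k0 ≤ p.1 ∧ p.2 = loc (N p.1) (y p.1) then (dig p.1 v, dig p.1 b) else z p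

/-- **Key lemma.** -/
theorem key {K : Set Om} (hK : IsClosed K) (hm : mm K ≠ 0) : ∃ Y : Set ℝ, Y.Countable ∧
    ∀ N : ℕ → Set ℕ, (∀ k, nu (UU (N k)) ≤ 2⁻¹ ^ k) → (∀ k, Y ⊆ UU (N k)) → ∀ v : ℝ,
      ∃ (k0 : ℕ) (y : ℕ → ℝ) (z : ZZ), (∀ k ≥ k0, y k ∈ UU (N k)) ∧
        nu {b | ((y, zmod N v k0 y z b, b) : Om) ∈ K} ≠ 0 := by
  refine ⟨YY K, YY_countable K, fun N hN hY v => ?_⟩
  -- choice of `k0`
  obtain ⟨k0, hk0, hk0'⟩ : ∃ k0, 2 ≤ k0 ∧ 6 * (2⁻¹ : ℝ≥0∞) ^ k0 ≤ mm K / 2 := by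
    have h1 : Tendsto (fun k : ℕ => 6 * (2⁻¹ : ℝ≥0∞) ^ k) atTop (𝓝 0) := by
      have := ENNReal.Tendsto.const_mul (a := 6)
        (ENNReal.tendsto_pow_atTop_nhds_zero_of_lt_one (r := 2⁻¹) (by
          rw [ENNReal.inv_lt_one]; norm_num)) (Or.inr (by norm_num))
      simpa using this
    have h2 : ∀ᶠ k : ℕ in atTop, 6 * (2⁻¹ : ℝ≥0∞) ^ k ≤ mm K / 2 :=
      h1.eventually_le_const (ENNReal.half_pos hm)
    obtain ⟨k0, h3⟩ := (h2.and (eventually_ge_atTop 2)).exists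
    exact ⟨k0, h3.2, h3.1⟩
  have hmass : ∀ n, mm K / 2 ≤ mm (GG K N v k0 n) := by
    intro n
    have h1 := GG_mass N v k0 hK.measurableSet hk0 hN hY n
    have h2 : mm K / 2 + mm K / 2 ≤ mm (GG K N v k0 n) + mm K / 2 := by
      rw [ENNReal.add_halves]
      exact h1.trans (by gcongr)
    exact (ENNReal.add_le_add_iff_right
      (ENNReal.div_ne_top (measure_ne_top _ _) (by norm_num))).1 h2
  have hA : mm (PhiI K N v k0 ⁻¹' K) ≠ 0 := by
    intro h
    have := PhiI_mass N v k0 hK hmass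
    rw [h] at this
    exact (ENNReal.half_pos hm).ne' (le_antisymm this bot_le)
  have hAm : MeasurableSet (PhiI K N v k0 ⁻¹' K) := measurable_PhiI N v k0 hK.measurableSet
  obtain ⟨y', hy'⟩ : ∃ y', (muZ.prod nu) (Prod.mk y' ⁻¹' (PhiI K N v k0 ⁻¹' K)) ≠ 0 := by
    by_contra hcon
    push Not at hcon
    apply hA
    unfold mm
    rw [Measure.measure_prod_null hAm]
    exact Eventually.of_forall hcon
  obtain ⟨z', hz'⟩ : ∃ z', nu (Prod.mk z' ⁻¹' (Prod.mk y' ⁻¹' (PhiI K N v k0 ⁻¹' K))) ≠ 0 := by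
    by_contra hcon
    push Not at hcon
    apply hy'
    rw [Measure.measure_prod_null (measurable_prodMk_left hAm)]
    exact Eventually.of_forall hcon
  refine ⟨k0, fun k => if k0 ≤ k then yk K N v k0 k else y' k, z', fun k hk => ?_, ?_⟩
  · simp only [ge_iff_le] at hk
    simp only [hk, if_true]
    exact hY k (yk_mem K N v k0 k)
  · convert hz' using 2
    ext b
    simp only [mem_ofPred_eq, mem_preimage]
    have : PhiI K N v k0 (y', z', b) = ((fun k => if k0 ≤ k then yk K N v k0 k else y' k,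
        zmod N v k0 (fun k => if k0 ≤ k then yk K N v k0 k else y' k) z' b, b) : Om) := by
      unfold PhiI zmod
      refine Prod.ext rfl (Prod.ext ?_ rfl)
      funext p
      simp only
      by_cases h : k0 ≤ p.1
      · simp only [h, true_and, if_true]
        rfl
      · simp [h]
    rw [this]

end AbsBorel.Key
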