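import Pool.Agent.AbsBorel.Coset

/-!
# Measurability of the graph of a group operation
-/

open Cardinal Set

universe u v

namespace AbsBorel

variable {G : Type u} [Group G]

/-- Depth-bounded derivability. -/
def DerN (ρ a : ℕ → G → G) : ℕ → G → G → G → Prop
  | 0, x, y, z => ∃ n, y = a n x ∧ z = (x * a n x)⁻¹
  | m + 1, x, y, z => DerN ρ a m y z x ∨
      ∃ k, (ρ k y)⁻¹ * y = (ρ k z⁻¹)⁻¹ * z⁻¹ ∧ DerN ρ a m x (ρ k y) (ρ k z⁻¹)⁻¹

theorem derN_of_der {ρ a : ℕ → G → G} {x y z : G} (h : Der ρ a x y z) :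
    ∃ m, DerN ρ a m x y z := by
  induction h with
  | direct n x => exact ⟨0, n, rfl, rfl⟩
  | rot _ ih => obtain ⟨m, hm⟩ := ih; exact ⟨m + 1, Or.inl hm⟩
  | move k h _ ih => obtain ⟨m, hm⟩ := ih; exact ⟨m + 1, Or.inr ⟨k, h, hm⟩⟩

theorem der_of_derN {ρ a : ℕ → G → G} : ∀ (m : ℕ) {x y z : G}, DerN ρ a m x y z → Der ρ a x y z
  | 0, x, y, z, h => by
    obtain ⟨n, rfl, rfl⟩ := h
    exact Der.direct n x
  | m + 1, x, y, z, h => by
    rcases h with h | ⟨k, h1, h2⟩
    · exact Der.rot (der_of_derN m h)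
    · exact Der.move k h1 (der_of_derN m h2)

section

variable {J : Type v} [LinearOrder J] [WellFoundedLT J] (s : J → G)

/-- The value of the sequence at the level of `g`. -/
noncomputable def sig (g : G) : G := WithTop.recTopCoe 1 (fun α => s α) (lev s g)

theorem sig_of_lev {g : G} {α : J} (h : lev s g = α) : sig s g = s α := by
  unfold sig; rw [h]; rfl

/-- The reduction of triples whose first element is in the sequence. -/
def QN : ℕ → G → G → G → Prop
  | 0, x, b, c => (x = sig s b ∧ c = (sig s b * b)⁻¹) ∨ (x = sig s c ∧ b = (c * sig s c)⁻¹)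
  | m + 1, x, b, c => (red s b)⁻¹ * b = (red s c⁻¹)⁻¹ * c⁻¹ ∧ QN m x (red s b) (red s c⁻¹)⁻¹

theorem QN_sound : ∀ (m : ℕ) {x b c : G}, QN s m x b c → x * b * c = 1
  | 0, x, b, c, h => by
    rcases h with ⟨rfl, rfl⟩ | ⟨rfl, rfl⟩
    · group
    · group
  | m + 1, x, y, z, h => by
    have ih := QN_sound m h.2
    have h1 := h.1
    have hy : y = red s y * ((red s y)⁻¹ * y) := by group
    have hz : z = ((red s z⁻¹)⁻¹ * z⁻¹)⁻¹ * (red s z⁻¹)⁻¹ := by group
    calc x * y * z = x * (red s y * ((red s y)⁻¹ * y)) *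
            (((red s z⁻¹)⁻¹ * z⁻¹)⁻¹ * (red s z⁻¹)⁻¹) := by rw [← hy, ← hz]
      _ = x * (red s y) * (red s z⁻¹)⁻¹ := by rw [h1]; group
      _ = 1 := ih

/-- Independence of the sequence. -/
def Indep : Prop := ∀ α : J, s α ∉ Lt s (α : WithTop J)

variable {s}

theorem Indep.lev_eq (hs : Indep s) (α : J) : lev s (s α) = α := by
  apply le_antisymm
  · rw [lev_le_iff]
    exact Subgroup.subset_closure ⟨α, self_mem_Iic, rfl⟩
  · by_contra h
    exact hs α (mem_Lt_of_lev s (not_le.1 h))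

omit [WellFoundedLT J] in
theorem Indep.ne_one (hs : Indep s) (α : J) : s α ≠ 1 := by
  intro h
  exact hs α (by rw [h]; exact one_mem _)

theorem Indep.inj (hs : Indep s) : Function.Injective s := by
  intro α β h
  have := hs.lev_eq α
  rw [h, hs.lev_eq β] at this
  exact (WithTop.coe_injective this).symm

variable (s) in
theorem lev_third {a b c : G} (h : a * b * c = 1) (hab : lev s a ≠ lev s b) :
    lev s c = max (lev s a) (lev s b) := by
  rcases lt_or_gt_of_ne hab with h1 | h1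
  · rw [max_eq_right h1.le]; exact lev_top s h h1
  · rw [max_eq_left h1.le]
    have h2 : b⁻¹ * a⁻¹ * c⁻¹ = 1 := by
      have : c = (a * b)⁻¹ := (inv_eq_of_mul_eq_one_right h).symm
      rw [this]; group
    have := lev_top s h2 (by rw [lev_inv, lev_inv]; exact h1)
    rwa [lev_inv, lev_inv] at this

theorem Indep.complete (hs : Indep s) (β : J) : ∀ γ : WithTop J, ∀ b c : G, lev s b ≤ γ →
    lev s c ≤ γ → s β * b * c = 1 → ∃ m, QN s m (s β) b c := by
  intro γ
  induction γ using WellFoundedLT.induction with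
  | ind γ IH =>
  intro b c hb hc h
  have hbcs : b * c * s β = 1 := by
    calc b * c * s β = (s β)⁻¹ * (s β * b * c) * s β := by group
      _ = 1 := by rw [h]; group
  by_cases h1 : lev s b = β
  · refine ⟨0, Or.inl ⟨(sig_of_lev s h1).symm, ?_⟩⟩
    rw [sig_of_lev s h1]
    exact (inv_eq_of_mul_eq_one_right h).symm
  by_cases h2 : lev s c = β
  · refine ⟨0, Or.inr ⟨(sig_of_lev s h2).symm, ?_⟩⟩
    rw [sig_of_lev s h2, eq_inv_iff_mul_eq_one, ← mul_assoc]
    exact hbcs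
  have hlb : lev s (s β) < lev s b := by
    by_contra hlt
    rw [hs.lev_eq β] at hlt
    have h3 : lev s b < β := lt_of_le_of_ne (not_lt.1 hlt) h1
    have h4 := lev_third s h (by rw [hs.lev_eq]; exact h3.ne')
    rw [hs.lev_eq, max_eq_left h3.le] at h4
    exact h2 h4
  have hlc := lev_top s h hlb
  have hb' := red_lt s hlb rfl
  have hc' : lev s (red s c⁻¹)⁻¹ < lev s b := by
    rw [lev_inv]
    exact red_lt s hlb (by rw [lev_inv, hlc])
  obtain ⟨m, hm⟩ := IH _ (lt_of_lt_of_le (max_lt hb' hc') hb) (red s b) (red s c⁻¹)⁻¹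
    (le_max_left _ _) (le_max_right _ _) (red_mul s h hlb)
  exact ⟨m + 1, red_eq s h hlb, hm⟩

theorem Indep.xy (hs : Indep s) {x y z : G} (hx : x ∈ range s) (hy : y ∈ range s) :
    x * y = z ↔ (x = sig s z ∧ y = (sig s z)⁻¹ * z) ∨ (y = sig s z ∧ x = z * (sig s z)⁻¹) ∨
      (x = y ∧ x * x = z) := by
  constructor
  · intro h
    obtain ⟨β, rfl⟩ := hx
    obtain ⟨γ, rfl⟩ := hy
    by_cases hβγ : β = γ
    · subst hβγ; exact Or.inr (Or.inr ⟨rfl, h⟩)
    have h1 : s β * s γ * z⁻¹ = 1 := by rw [h]; group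
    have h2 := lev_third s h1 (by
      rw [hs.lev_eq, hs.lev_eq]; exact fun h => hβγ (WithTop.coe_injective h))
    rw [lev_inv, hs.lev_eq, hs.lev_eq] at h2
    rcases max_choice (β : WithTop J) (γ : WithTop J) with h3 | h3
    · rw [h3] at h2
      refine Or.inl ⟨(sig_of_lev s h2).symm, ?_⟩
      rw [sig_of_lev s h2, ← h]; group
    · rw [h3] at h2
      refine Or.inr (Or.inl ⟨(sig_of_lev s h2).symm, ?_⟩)
      rw [sig_of_lev s h2, ← h]; group
  · rintro (⟨h1, h2⟩ | ⟨h1, h2⟩ | ⟨h1, h2⟩)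
    · rw [h2, h1]; group
    · rw [h2, h1]; group
    · rw [← h1]; exact h2

theorem Indep.xz (hs : Indep s) {x y z : G} (hx : x ∈ range s) (hz : z ∈ range s) :
    x * y = z ↔ (x = sig s y ∧ z = sig s y * y) ∨ (z = sig s y ∧ x = sig s y * y⁻¹) ∨
      (x = z ∧ y = 1) := by
  constructor
  · intro h
    obtain ⟨β, rfl⟩ := hx
    obtain ⟨γ, rfl⟩ := hz
    by_cases hβγ : β = γ
    · subst hβγ; exact Or.inr (Or.inr ⟨rfl, by simpa using h⟩)
    have h1 : (s γ)⁻¹ * s β * y = 1 := by rw [← h]; group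
    have h2 := lev_third s h1 (by
      rw [lev_inv, hs.lev_eq, hs.lev_eq]; exact fun h => hβγ (WithTop.coe_injective h).symm)
    rw [lev_inv, hs.lev_eq, hs.lev_eq] at h2
    rcases max_choice (γ : WithTop J) (β : WithTop J) with h3 | h3
    · rw [h3] at h2
      refine Or.inr (Or.inl ⟨(sig_of_lev s h2).symm, ?_⟩)
      rw [sig_of_lev s h2, ← h]; group
    · rw [h3] at h2
      refine Or.inl ⟨(sig_of_lev s h2).symm, ?_⟩
      rw [sig_of_lev s h2, ← h]
  · rintro (⟨h1, h2⟩ | ⟨h1, h2⟩ | ⟨h1, h2⟩)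
    · rw [h2, h1]
    · rw [h2, h1]; group
    · rw [h1, h2, mul_one]

theorem Indep.yz (hs : Indep s) {x y z : G} (hy : y ∈ range s) (hz : z ∈ range s) :
    x * y = z ↔ (y = sig s x ∧ z = x * sig s x) ∨ (z = sig s x ∧ y = x⁻¹ * sig s x) ∨
      (y = z ∧ x = 1) := by
  constructor
  · intro h
    obtain ⟨β, rfl⟩ := hy
    obtain ⟨γ, rfl⟩ := hz
    by_cases hβγ : β = γ
    · subst hβγ; exact Or.inr (Or.inr ⟨rfl, by simpa using h⟩)
    have h1 : s β * (s γ)⁻¹ * x = 1 := by rw [← h]; group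
    have h2 := lev_third s h1 (by
      rw [lev_inv, hs.lev_eq, hs.lev_eq]; exact fun h => hβγ (WithTop.coe_injective h))
    rw [lev_inv, hs.lev_eq, hs.lev_eq] at h2
    rcases max_choice (β : WithTop J) (γ : WithTop J) with h3 | h3
    · rw [h3] at h2
      refine Or.inl ⟨(sig_of_lev s h2).symm, ?_⟩
      rw [sig_of_lev s h2, ← h]
    · rw [h3] at h2
      refine Or.inr (Or.inl ⟨(sig_of_lev s h2).symm, ?_⟩)
      rw [sig_of_lev s h2, ← h]; group
  · rintro (⟨h1, h2⟩ | ⟨h1, h2⟩ | ⟨h1, h2⟩)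
    · rw [h2, h1]
    · rw [h2, h1]; group
    · rw [h1, h2, one_mul]

theorem Indep.xyz (hs : Indep s) (hsq : ∀ α β, s α * s α ≠ s β) {x y z : G}
    (hx : x ∈ range s) (hy : y ∈ range s) (hz : z ∈ range s) : x * y ≠ z := by
  intro h
  obtain ⟨γ, rfl⟩ := hz
  rcases (hs.xy hx hy).1 h with ⟨h1, h2⟩ | ⟨h1, h2⟩ | ⟨h1, h2⟩
  · rw [sig_of_lev s (hs.lev_eq γ)] at h2
    obtain ⟨β, rfl⟩ := hy
    exact hs.ne_one β (by rw [h2]; group)
  · rw [sig_of_lev s (hs.lev_eq γ)] at h2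
    obtain ⟨β, rfl⟩ := hx
    exact hs.ne_one β (by rw [h2]; group)
  · obtain ⟨β, rfl⟩ := hx
    exact hsq β γ h2

end

end AbsBorel
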